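import Pool.Agent.CMT.Defs
import Pool.Agent.TilePer.Basic

/-! From a tiling of `ℤ` by `A` to a tiling of `ℤ_M` with `M` a multiple of a given number:
`Pool.Agent.TilePer.Tiles.periodic` gives a period `m` of `C`; take `M = m * q` and
`T` the representatives of `C` in `[0, M)`. -/

namespace Pool.Agent.CMT

open Finset

theorem exists_til {A : Finset ℕ}
    (h : ∃ C : Set ℤ, ∀ n : ℤ, ∃! p : ℤ × ℤ,
      (∃ a ∈ A, (a : ℤ) = p.1) ∧ p.2 ∈ C ∧ p.1 + p.2 = n) {q : ℕ} (hq : 0 < q) :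
    ∃ (M : ℕ) (T : Finset ℕ), q ∣ M ∧ Til M A T := by
  classical
  obtain ⟨C, hC⟩ := h
  have hT : TilePer.Tiles (A.image (fun a : ℕ => (a : ℤ))) C := by
    intro n
    obtain ⟨p, hp, hu⟩ := hC n
    refine ⟨p, ⟨?_, hp.2.1, hp.2.2⟩, ?_⟩
    · obtain ⟨a, ha, e⟩ := hp.1
      exact Finset.mem_image.2 ⟨a, ha, e⟩
    · rintro p' ⟨h1, h2, h3⟩
      apply hu
      refine ⟨?_, h2, h3⟩
      obtain ⟨a, ha, e⟩ := Finset.mem_image.1 h1
      exact ⟨a, ha, e⟩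
  obtain ⟨m, hm⟩ := hT.periodic
  have hm0 := hm.1
  have hM0 : 0 < m * q := Nat.mul_pos hm0 hq
  have hper : TilePer.IsPeriod C (m * q) := by
    refine ⟨hM0, fun x => ?_⟩
    have := hm.int (q : ℤ) x
    rw [← this]
    push_cast
    rw [mul_comm (m : ℤ) (q : ℤ)]
  set M : ℕ := m * q with hMdef
  haveI : NeZero M := ⟨hM0.ne'⟩
  refine ⟨M, (Finset.range M).filter (fun t : ℕ => (t : ℤ) ∈ C), Dvd.intro_left m rfl, hM0, ?_⟩
  intro r
  rw [Finset.card_eq_one]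
  obtain ⟨a, ha, hb⟩ := hT.exists (r.val : ℤ)
  obtain ⟨a0, ha0, rfl⟩ := Finset.mem_image.1 ha
  have hMz : (0 : ℤ) < M := by exact_mod_cast hM0
  obtain ⟨t, ht⟩ : ∃ t : ℕ, (t : ℤ) = ((r.val : ℤ) - a0) % M :=
    ⟨(((r.val : ℤ) - a0) % M).toNat, Int.toNat_of_nonneg (Int.emod_nonneg _ hMz.ne')⟩
  have htlt : t < M := by
    have : (t : ℤ) < M := by rw [ht]; exact Int.emod_lt_of_pos _ hMz
    exact_mod_cast this
  have htmod : (t : ℤ) ≡ (r.val : ℤ) - a0 [ZMOD M] := by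
    rw [ht]; exact Int.mod_modEq _ _
  have htC : (t : ℤ) ∈ C := (hper.modEq htmod).2 hb
  refine ⟨(a0, t), ?_⟩
  ext ⟨x, y⟩
  simp only [Finset.mem_filter, Finset.mem_product, Finset.mem_range, Finset.mem_singleton,
    Prod.mk.injEq]
  have hr : ∀ u : ℕ, ((u : ℕ) : ZMod M) = r ↔ (u : ℤ) ≡ (r.val : ℤ) [ZMOD M] := by
    intro u
    rw [← ZMod.intCast_eq_intCast_iff]
    push_cast
    rw [ZMod.natCast_zmod_val]
  constructor
  · rintro ⟨⟨hx, hy, hyC⟩, hxy⟩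
    rw [hr] at hxy
    push_cast at hxy
    have h1 : (x : ℤ) + y ≡ (a0 : ℤ) + t [ZMOD M] := by
      have h2 : (a0 : ℤ) + t ≡ (a0 : ℤ) + ((r.val : ℤ) - a0) [ZMOD M] := htmod.add_left _
      have h3 : (a0 : ℤ) + ((r.val : ℤ) - a0) = (r.val : ℤ) := by ring
      rw [h3] at h2
      exact hxy.trans h2.symm
    have hyC' : (a0 : ℤ) + t - x ∈ C := by
      have h4 : (y : ℤ) ≡ (a0 : ℤ) + t - x [ZMOD M] := by
        have := h1.sub_right (x : ℤ)
        have e : (x : ℤ) + y - x = y := by ring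
        rw [e] at this
        exact this
      exact (hper.modEq h4).1 hyC
    have hxa : (x : ℤ) = (a0 : ℤ) :=
      hT.unique (Finset.mem_image.2 ⟨x, hx, rfl⟩) (Finset.mem_image.2 ⟨a0, ha0, rfl⟩)
        hyC' htC (by ring)
    have hxa' : x = a0 := by exact_mod_cast hxa
    refine ⟨hxa', ?_⟩
    subst hxa'
    have h5 : (y : ℤ) ≡ t [ZMOD M] := Int.ModEq.add_left_cancel' _ h1
    have h6 := (Int.natCast_modEq_iff).1 h5
    exact Nat.ModEq.eq_of_lt_of_lt h6 hy htlt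
  · rintro ⟨rfl, rfl⟩
    refine ⟨⟨ha0, htlt, htC⟩, ?_⟩
    rw [hr]
    push_cast
    have h2 : (x : ℤ) + y ≡ (x : ℤ) + ((r.val : ℤ) - x) [ZMOD M] := htmod.add_left _
    have h3 : (x : ℤ) + ((r.val : ℤ) - x) = (r.val : ℤ) := by ring
    rw [h3] at h2
    exact h2

end Pool.Agent.CMT
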