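import Pool.Agent.CMT.Red

/-! Let `α e + β e = N` (the norm element) and `α e * β e' = 0` for all `e, e'` in `F_p[G]`,
`p` not dividing `|G|`. Then all `α e` vanish or all `β e` vanish.
Proof: `α_e ^ 2 = α_e (N - β_e) = α_e N = a N`, `a` = augmentation (sum of coefficients) of `α_e`;
augment: `a ^ 2 = a |G|`. If `a = 0` then `α_e ^ 2 = 0`, so `α_e = 0` by `red`. If `a = |G|` then
the augmentation of `β_e = N - α_e` is `0` and `β_e ^ 2 = β_e N = 0`, so `β_e = 0`.
If some `α_e ≠ 0`, then `β_e = 0`, `α_e = N`, so `N β_e' = 0` for every `e'`,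
`β_e' ^ 2 = β_e' (N - α_e') = β_e' N = 0`, so `β_e' = 0`. -/

namespace Pool.Agent.CMT

open Finset

theorem single_mul_nrm {R G : Type} [CommRing R] [AddCommGroup G] [Fintype G] (g : G) (r : R) :
    AddMonoidAlgebra.single g r * nrm R G = r • nrm R G := by
  unfold nrm
  rw [Finset.mul_sum, Finset.smul_sum]
  refine Fintype.sum_equiv (Equiv.addLeft g) _ _ fun h => ?_
  simp [AddMonoidAlgebra.single_mul_single, AddMonoidAlgebra.smul_single]

theorem mul_nrm {R G : Type} [CommRing R] [AddCommGroup G] [Fintype G] (x : AddMonoidAlgebra R G) :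
    x * nrm R G = (∑ g, x.coeff g) • nrm R G := by
  classical
  have hsum : x = ∑ g : G, AddMonoidAlgebra.single g (x.coeff g) := by
    apply AddMonoidAlgebra.coeff_injective
    rw [AddMonoidAlgebra.coeff_sum]
    ext g
    simp
  conv_lhs => rw [hsum]
  rw [Finset.sum_mul, Finset.sum_smul]
  exact Finset.sum_congr rfl fun g _ => single_mul_nrm g _

theorem nrm_coeff {R G : Type} [CommRing R] [AddCommGroup G] [Fintype G] (g : G) :
    (nrm R G).coeff g = 1 := by
  classical
  unfold nrm
  rw [AddMonoidAlgebra.coeff_sum]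
  simp [Finsupp.single_apply]

theorem smul_nrm_eq_zero {R G : Type} [CommRing R] [AddCommGroup G] [Fintype G] {r : R}
    (h : r • nrm R G = 0) : r = 0 := by
  have h1 := congrArg (fun z : AddMonoidAlgebra R G => z.coeff 0) h
  simpa [nrm_coeff] using h1

theorem alt {p : ℕ} (hp : p.Prime) {G : Type} [AddCommGroup G] [Fintype G]
    (hG : (Fintype.card G).Coprime p) {ι : Type} (α β : ι → AddMonoidAlgebra (ZMod p) G)
    (hN : ∀ e, α e + β e = nrm (ZMod p) G) (h0 : ∀ e e', α e * β e' = 0) :
    (∀ e, α e = 0) ∨ (∀ e, β e = 0) := by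
  have : Fact p.Prime := ⟨hp⟩
  -- the augmentation
  let aug : AddMonoidAlgebra (ZMod p) G → ZMod p := fun x => ∑ g, x.coeff g
  have haug : ∀ x, x * nrm (ZMod p) G = aug x • nrm (ZMod p) G := fun x => mul_nrm x
  have hadd : ∀ x y, aug (x + y) = aug x + aug y := by
    intro x y
    simp only [aug, AddMonoidAlgebra.coeff_add, Finsupp.add_apply, Finset.sum_add_distrib]
  have hnn : aug (nrm (ZMod p) G) = (Fintype.card G : ZMod p) := by
    simp [aug, nrm_coeff]
  have hsq : ∀ e, α e * α e = aug (α e) • nrm (ZMod p) G := by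
    intro e
    rw [← haug, ← hN e, mul_add, h0, add_zero]
  have hsqb : ∀ e, β e * β e = aug (β e) • nrm (ZMod p) G := by
    intro e
    rw [← haug, ← hN e, mul_add, mul_comm (β e) (α e), h0, zero_add]
  have hquad : ∀ e, aug (α e) * aug (α e) = aug (α e) * (Fintype.card G : ZMod p) := by
    intro e
    have h1 : α e * (α e * nrm (ZMod p) G) = (aug (α e) * aug (α e)) • nrm (ZMod p) G := by
      rw [haug, mul_smul_comm, haug, smul_smul]
    have h2 : α e * (α e * nrm (ZMod p) G) =
        (aug (α e) * (Fintype.card G : ZMod p)) • nrm (ZMod p) G := by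
      rw [← mul_assoc, hsq, smul_mul_assoc, haug, hnn, smul_smul]
    have h3 : (aug (α e) * aug (α e) - aug (α e) * (Fintype.card G : ZMod p)) •
        nrm (ZMod p) G = 0 := by
      rw [sub_smul, ← h1, ← h2, sub_self]
    exact sub_eq_zero.mp (smul_nrm_eq_zero h3)
  have hdich : ∀ e, α e = 0 ∨ β e = 0 := by
    intro e
    rcases eq_or_ne (aug (α e)) 0 with ha | ha
    · left
      refine red hp hG _ ?_
      rw [hsq, ha, zero_smul]
    · right
      refine red hp hG _ ?_
      have h1 : aug (α e) = (Fintype.card G : ZMod p) := mul_left_cancel₀ ha (hquad e)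
      have h2 : aug (β e) = 0 := by
        have h3 := hadd (α e) (β e)
        rw [hN, hnn, h1] at h3
        simpa using h3
      rw [hsqb, h2, zero_smul]
  by_cases hall : ∀ e, α e = 0
  · exact Or.inl hall
  · right
    push Not at hall
    obtain ⟨e, he⟩ := hall
    have hbe : β e = 0 := (hdich e).resolve_left he
    have hae : α e = nrm (ZMod p) G := by
      have := hN e
      rwa [hbe, add_zero] at this
    intro e'
    refine red hp hG _ ?_
    have h1 : β e' * nrm (ZMod p) G = 0 := by
      rw [← hae, mul_comm, h0]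
    rw [hsqb, ← haug, h1]

end Pool.Agent.CMT
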