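import Pool.Agent.CMT.Ind
import Pool.Agent.CMT.Per

set_option autoImplicit false

namespace Pool.Agent.CMT

/-- The Coven-Meyerowitz condition (T2) for every finite set of nonnegative integers which tiles
the integers by translations: for any nonempty set of pairwise coprime prime powers `s` with
`Φ_s` dividing the mask polynomial of `A`, `Φ` of their product also divides it. -/
theorem coven_meyerowitz :
    ∀ A : Finset ℕ,
      (∃ C : Set ℤ, ∀ n : ℤ, ∃! p : ℤ × ℤ,
          (∃ a ∈ A, (a : ℤ) = p.1) ∧ p.2 ∈ C ∧ p.1 + p.2 = n) →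
      ∀ S : Finset ℕ, S.Nonempty →
        (∀ s ∈ S, IsPrimePow s ∧
            Polynomial.cyclotomic s ℤ ∣ ∑ a ∈ A, (Polynomial.X : Polynomial ℤ) ^ a) →
        (S : Set ℕ).Pairwise Nat.Coprime →
        Polynomial.cyclotomic (∏ s ∈ S, s) ℤ ∣ ∑ a ∈ A, (Polynomial.X : Polynomial ℤ) ^ a := by
  intro A hA S hS hs hc
  have hq : 0 < ∏ s ∈ S, s := Finset.prod_pos fun s hs' => (hs s hs').1.pos
  obtain ⟨M, T, hM, hT⟩ := exists_til hA hq
  exact t2 hT S hS (fun s h => (hs s h).1)
    (fun s h => (Finset.dvd_prod_of_mem _ h).trans hM) (fun s h => (hs s h).2) hc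

end Pool.Agent.CMT
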