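import Mathlib

/-! Definitions for the proof of the Coven-Meyerowitz conjecture (note 2669). -/

namespace Pool.Agent.CMT

open Finset

/-- The sum of all group elements in the group ring `R[G]`. -/
noncomputable def nrm (R G : Type) [CommRing R] [AddCommGroup G] [Fintype G] :
    AddMonoidAlgebra R G :=
  ∑ g : G, AddMonoidAlgebra.single g 1

/-- Fibre sums along `κ : Q → Qb`. -/
noncomputable def bar {G Q Qb : Type} [Fintype Q] [DecidableEq Qb] (κ : Q → Qb)
    (A : Q → AddMonoidAlgebra ℤ G) (y : Qb) : AddMonoidAlgebra ℤ G :=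
  ∑ c ∈ univ.filter (fun c => κ c = y), A c

/-- `A ⊕ T = ℤ_M`: every residue class mod `M` is `a + t` for exactly one pair. -/
def Til (M : ℕ) (A T : Finset ℕ) : Prop :=
  0 < M ∧ ∀ r : ZMod M, ((A ×ˢ T).filter (fun x => ((x.1 + x.2 : ℕ) : ZMod M) = r)).card = 1

/-- The part of `A` in the residue class `c` mod `q`, as an element of `ℤ[ℤ_n]`. -/
noncomputable def gr (n q : ℕ) (A : Finset ℕ) (c : ZMod q) : AddMonoidAlgebra ℤ (ZMod n) :=
  ∑ a ∈ A.filter (fun a => ((a : ℕ) : ZMod q) = c), AddMonoidAlgebra.single ((a : ℕ) : ZMod n) 1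

/-- Reduction `ℤ_{p^(k+1)} → ℤ_{p^k}`. -/
def kap (p k : ℕ) : ZMod (p ^ (k + 1)) →+* ZMod (p ^ k) :=
  ZMod.castHom (pow_dvd_pow p (Nat.le_succ k)) (ZMod (p ^ k))

/-- The section subset: `a ∈ A` with `a mod p^(k+1) = σ (a mod p^k)`. -/
def sec (p k : ℕ) (σ : ZMod (p ^ k) → ZMod (p ^ (k + 1))) (A : Finset ℕ) : Finset ℕ :=
  A.filter (fun a => ((a : ℕ) : ZMod (p ^ (k + 1))) = σ ((a : ℕ) : ZMod (p ^ k)))

/-- Mask polynomial. -/
noncomputable def mask (A : Finset ℕ) : Polynomial ℤ := ∑ a ∈ A, Polynomial.X ^ a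

end Pool.Agent.CMT
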