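import Pool.Agent.CMT.Defs

/-! Fourier injectivity on `ℤ_n`. -/

namespace Pool.Agent.CMT

open Finset

/-- Fourier injectivity on `ℤ_n`. (`AddChar.zmodChar n h a = ζ ^ a.val`; or geometric sums:
`∑_{i<n} ξ^(-iy) ∑_g x_g ξ^(ig) = n x_y` for a primitive `n`-th root `ξ`.) -/
theorem zero_of_ev {n : ℕ} [NeZero n] (x : AddMonoidAlgebra ℤ (ZMod n))
    (h : ∀ ζ : ℂ, ζ ^ n = 1 → ∑ g : ZMod n, (x.coeff g : ℂ) * ζ ^ g.val = 0) : x = 0 := by
  have key : ZMod.dft (fun g : ZMod n => (x.coeff g : ℂ)) = 0 := by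
    ext k
    have hζ : (ZMod.stdAddChar (-k) : ℂ) ^ n = 1 := by
      rw [← AddChar.map_nsmul_eq_pow]
      simp
    have h1 := h _ hζ
    rw [ZMod.dft_apply, Pi.zero_apply, ← h1]
    refine Finset.sum_congr rfl fun g _ => ?_
    rw [← AddChar.map_nsmul_eq_pow, smul_eq_mul, mul_comm]
    congr 2
    rw [nsmul_eq_mul, ZMod.natCast_val, ZMod.cast_id', id_eq]
    ring
  have h2 : (fun g : ZMod n => (x.coeff g : ℂ)) = 0 := by
    have := (ZMod.dft (N := n) (E := ℂ)).injective (a₁ := fun g : ZMod n => (x.coeff g : ℂ))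
      (a₂ := 0) (by rw [key, map_zero])
    exact this
  ext g
  have h3 := congrFun h2 g
  simpa using h3

end Pool.Agent.CMT
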