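import Pool.Agent.CMT.Defs

/-! In a tiling of `ℤ_M` every `Φ_m`, `m | M`, `m ≠ 1`, divides one of the two mask polynomials:
for a primitive `m`-th root `ζ ∈ ℂ`, `mask A (ζ) mask T (ζ) = ∑_{r mod M} ζ^r = 0`, and
`cyclotomic m ℤ` is the minimal polynomial of `ζ` over `ℤ`. -/

namespace Pool.Agent.CMT

open Finset

theorem til_card {M : ℕ} {A T : Finset ℕ} (h : Til M A T) : A.card * T.card = M := by
  obtain ⟨hM, h⟩ := h
  haveI : NeZero M := ⟨hM.ne'⟩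
  have h1 : (A ×ˢ T).card = ∑ r : ZMod M,
      ((A ×ˢ T).filter (fun x => ((x.1 + x.2 : ℕ) : ZMod M) = r)).card :=
    Finset.card_eq_sum_card_fiberwise (fun x _ => Finset.mem_univ _)
  rw [Finset.card_product] at h1
  rw [h1, Finset.sum_congr rfl (fun r _ => h r)]
  simp [ZMod.card]

private theorem root_aeval_mask (A : Finset ℕ) (ζ : ℂ) :
    Polynomial.aeval ζ (mask A) = ∑ a ∈ A, ζ ^ a := by
  unfold mask
  rw [map_sum]
  simp

private theorem root_pow_val {M : ℕ} (hM : 0 < M) {ζ : ℂ} (hζ : ζ ^ M = 1) (x : ℕ) :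
    ζ ^ x = ζ ^ ((x : ZMod M)).val := by
  haveI : NeZero M := ⟨hM.ne'⟩
  rw [ZMod.val_natCast]
  conv_lhs => rw [← Nat.div_add_mod x M, pow_add, pow_mul, hζ, one_pow, one_mul]

private theorem root_mul {M : ℕ} {A T : Finset ℕ} (h : Til M A T) {ζ : ℂ} (hζ : ζ ^ M = 1)
    (hζ1 : ζ ≠ 1) : (∑ a ∈ A, ζ ^ a) * (∑ t ∈ T, ζ ^ t) = 0 := by
  obtain ⟨hM, h⟩ := h
  haveI : NeZero M := ⟨hM.ne'⟩
  have h1 : (∑ a ∈ A, ζ ^ a) * (∑ t ∈ T, ζ ^ t) = ∑ x ∈ A ×ˢ T, ζ ^ (x.1 + x.2) := by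
    rw [Finset.sum_mul_sum, Finset.sum_product]
    simp only [pow_add]
  have h2 : ∑ x ∈ A ×ˢ T, ζ ^ (x.1 + x.2) = ∑ r : ZMod M, ζ ^ r.val := by
    rw [← Finset.sum_fiberwise_of_maps_to (s := A ×ˢ T) (t := Finset.univ)
      (g := fun x : ℕ × ℕ => ((x.1 + x.2 : ℕ) : ZMod M)) (fun x _ => Finset.mem_univ _)]
    refine Finset.sum_congr rfl fun r _ => ?_
    have h3 : ∀ x ∈ (A ×ˢ T).filter (fun x => ((x.1 + x.2 : ℕ) : ZMod M) = r),
        ζ ^ (x.1 + x.2) = ζ ^ r.val := by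
      intro x hx
      rw [root_pow_val hM hζ, (Finset.mem_filter.1 hx).2]
    rw [Finset.sum_congr rfl h3, Finset.sum_const, h r, one_smul]
  have h4 : ∑ r : ZMod M, ζ ^ r.val = ∑ i ∈ Finset.range M, ζ ^ i := by
    refine Finset.sum_nbij' (fun r : ZMod M => r.val) (fun i => (i : ZMod M)) ?_ ?_ ?_ ?_ ?_
    · intro r _
      exact Finset.mem_range.2 (ZMod.val_lt r)
    · intro i _
      exact Finset.mem_univ _
    · intro r _
      simp
    · intro i hi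
      exact ZMod.val_cast_of_lt (Finset.mem_range.1 hi)
    · intro r _
      rfl
  rw [h1, h2, h4]
  have h5 : (ζ - 1) * ∑ i ∈ Finset.range M, ζ ^ i = 0 := by
    rw [mul_geom_sum, hζ, sub_self]
  rcases mul_eq_zero.1 h5 with h6 | h6
  · exact absurd (sub_eq_zero.1 h6) hζ1
  · exact h6

theorem root_or {M : ℕ} {A T : Finset ℕ} (h : Til M A T) {m : ℕ} (hm : m ∣ M) (hm1 : m ≠ 1) :
    Polynomial.cyclotomic m ℤ ∣ mask A ∨ Polynomial.cyclotomic m ℤ ∣ mask T := by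
  have hm0 : 0 < m := Nat.pos_of_dvd_of_pos hm h.1
  have hprim : IsPrimitiveRoot (Complex.exp (2 * Real.pi * Complex.I / m)) m :=
    Complex.isPrimitiveRoot_exp m hm0.ne'
  set ζ : ℂ := Complex.exp (2 * Real.pi * Complex.I / m) with hζdef
  have hζM : ζ ^ M = 1 := by
    obtain ⟨c, rfl⟩ := hm
    rw [pow_mul, hprim.pow_eq_one, one_pow]
  have hζ1 : ζ ≠ 1 := hprim.ne_one (by omega)
  have h0 := root_mul h hζM hζ1
  have hint : IsIntegral ℤ ζ := hprim.isIntegral hm0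
  have hdiv : ∀ B : Finset ℕ, ∑ a ∈ B, ζ ^ a = 0 → Polynomial.cyclotomic m ℤ ∣ mask B := by
    intro B hB
    rw [Polynomial.cyclotomic_eq_minpoly hprim hm0]
    apply minpoly.isIntegrallyClosed_dvd hint
    rw [root_aeval_mask, hB]
  rcases mul_eq_zero.1 h0 with h1 | h1
  · exact Or.inl (hdiv A h1)
  · exact Or.inr (hdiv T h1)

end Pool.Agent.CMT
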