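import Pool.Agent.CMT.Ev
import Pool.Agent.CMT.Root

/-! (F3): for a tiling of `ℤ_M`, `M = p^(k+1) n`, `p ∤ n`. Proof: by `zero_of_ev` test at `x` with
`x ^ n = 1` (evaluation `[g] ↦ x ^ g.val` is a ring homomorphism `ℤ[ℤ_n] → ℂ`; use
`AddChar.zmodChar` and `AddMonoidAlgebra.lift`). Let `m` be the order of `x`. By `root_or` for
`p^(k+1) m`, one of the masks, say of `A`, vanishes at all `w x`, `w` primitive of order
`p^(k+1)`. Then `A_c(x) = ∑_{a ∈ A, a ≡ c mod p^(k+1)} x^a` depends only on `κ c`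
(inverse Fourier transform on `ℤ_{p^(k+1)}`:
`A_c(x) = p^{-(k+1)} ∑_{w^(p^(k+1)) = 1} w^{-c} mask A (w x)`, and the `w` with `w^(p^k) = 1` see
only `κ c`), i.e. `p A_c(x) = ∑_{κ c' = κ c} A_{c'}(x)`: the first factor vanishes at `x`. -/

namespace Pool.Agent.CMT

open Finset

/-- Evaluation at an `n`-th root of unity. -/
noncomputable def evH (n : ℕ) [NeZero n] {ζ : ℂ} (hζ : ζ ^ n = 1) :
    AddMonoidAlgebra ℤ (ZMod n) →ₐ[ℤ] ℂ :=
  AddMonoidAlgebra.lift ℤ ℂ (ZMod n) (AddChar.zmodChar n hζ).toMonoidHom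

theorem evH_single (n : ℕ) [NeZero n] {ζ : ℂ} (hζ : ζ ^ n = 1) (a : ℕ) :
    evH n hζ (AddMonoidAlgebra.single (a : ZMod n) 1) = ζ ^ a := by
  rw [evH, AddMonoidAlgebra.lift_single, one_smul]
  exact AddChar.zmodChar_apply' hζ a

theorem evH_apply (n : ℕ) [NeZero n] {ζ : ℂ} (hζ : ζ ^ n = 1)
    (x : AddMonoidAlgebra ℤ (ZMod n)) :
    evH n hζ x = ∑ g : ZMod n, (x.coeff g : ℂ) * ζ ^ g.val := by
  rw [evH, AddMonoidAlgebra.lift_apply, Finsupp.sum_fintype]
  · refine Finset.sum_congr rfl fun g _ => ?_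
    rw [zsmul_eq_mul]
    congr 1
  · intro g
    simp

/-- `∑ ζ^a` over `a ∈ A`, `a ≡ c mod q`. -/
noncomputable def evs (q : ℕ) (A : Finset ℕ) (ζ : ℂ) (c : ZMod q) : ℂ :=
  ∑ a ∈ A, if ((a : ℕ) : ZMod q) = c then ζ ^ a else 0

theorem evH_gr (n : ℕ) [NeZero n] {ζ : ℂ} (hζ : ζ ^ n = 1) (q : ℕ) (A : Finset ℕ) (c : ZMod q) :
    evH n hζ (gr n q A c) = evs q A ζ c := by
  rw [gr, map_sum, evs, Finset.sum_filter]
  refine Finset.sum_congr rfl fun a _ => ?_
  rw [evH_single]

theorem card_ker_kap {p k : ℕ} (hp : p.Prime) [NeZero (p ^ (k + 1))] :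
    (univ.filter (fun c : ZMod (p ^ (k + 1)) => kap p k c = 0)).card = p := by
  have : NeZero (p ^ k) := ⟨pow_ne_zero _ hp.ne_zero⟩
  have hsurj : Function.Surjective (kap p k) := ZMod.castHom_surjective _
  have h1 : (univ : Finset (ZMod (p ^ (k + 1)))).card =
      ∑ y : ZMod (p ^ k), (univ.filter (fun c : ZMod (p ^ (k + 1)) => kap p k c = y)).card :=
    Finset.card_eq_sum_card_fiberwise (fun _ _ => by simp)
  have h2 : ∀ y : ZMod (p ^ k), (univ.filter (fun c : ZMod (p ^ (k + 1)) => kap p k c = y)).card =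
      (univ.filter (fun c : ZMod (p ^ (k + 1)) => kap p k c = 0)).card := fun y =>
    AddMonoidHom.card_fiber_eq_of_mem_range (kap p k).toAddMonoidHom
      (by obtain ⟨c, hc⟩ := hsurj y; exact ⟨c, hc⟩) ⟨0, map_zero _⟩
  rw [Finset.sum_congr rfl fun y _ => h2 y, Finset.sum_const, Finset.card_univ, Finset.card_univ,
    ZMod.card, ZMod.card, smul_eq_mul] at h1
  exact (Nat.eq_of_mul_eq_mul_left (pow_pos hp.pos k) ((pow_succ p k).symm.trans h1)).symm

theorem evs_key {p k : ℕ} (hp : p.Prime) {A : Finset ℕ} {ζ : ℂ} (hm : (orderOf ζ).Coprime p)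
    (h0 : orderOf ζ ≠ 0) (hA : Polynomial.cyclotomic (p ^ (k + 1) * orderOf ζ) ℤ ∣ mask A)
    (c : ZMod (p ^ (k + 1))) :
    (p : ℂ) * evs (p ^ (k + 1)) A ζ c = evs (p ^ k) A ζ (kap p k c) := by
  have : NeZero (p ^ (k + 1)) := ⟨pow_ne_zero _ hp.ne_zero⟩
  set g : ZMod (p ^ (k + 1)) → ℂ := fun c =>
    (p : ℂ) * evs (p ^ (k + 1)) A ζ c - evs (p ^ k) A ζ (kap p k c) with hg
  set F : ZMod (p ^ (k + 1)) → ℂ := fun j =>
    ∑ a ∈ A, ZMod.stdAddChar (-(((a : ℕ) : ZMod (p ^ (k + 1))) * j)) * ζ ^ a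
    with hF
  set K : ZMod (p ^ (k + 1)) → ℂ := fun j =>
    ∑ c : ZMod (p ^ (k + 1)), if kap p k c = 0 then (ZMod.stdAddChar (-(c * j)) : ℂ) else 0 with hK
  have L1 : ∀ j, ∑ c : ZMod (p ^ (k + 1)), ZMod.stdAddChar (-(c * j)) * evs (p ^ (k + 1)) A ζ c =
      F j := by
    intro j
    simp only [evs, Finset.mul_sum, hF]
    rw [Finset.sum_comm]
    refine Finset.sum_congr rfl fun a _ => ?_
    simp
  have L2 : ∀ j, ∑ c : ZMod (p ^ (k + 1)), ZMod.stdAddChar (-(c * j)) *
      evs (p ^ k) A ζ (kap p k c) = K j * F j := by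
    intro j
    simp only [evs, Finset.mul_sum, hF]
    rw [Finset.sum_comm]
    refine Finset.sum_congr rfl fun a _ => ?_
    rw [← Equiv.sum_comp (Equiv.addLeft ((a : ℕ) : ZMod (p ^ (k + 1)))), hK]
    simp only []
    rw [Finset.sum_mul]
    refine Finset.sum_congr rfl fun c _ => ?_
    have e1 : (((a : ℕ) : ZMod (p ^ k)) = kap p k (((a : ℕ) : ZMod (p ^ (k + 1))) + c)) ↔
        kap p k c = 0 := by
      rw [map_add, map_natCast]
      simp
    have e2 : (ZMod.stdAddChar (-((((a : ℕ) : ZMod (p ^ (k + 1))) + c) * j)) : ℂ) =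
        ZMod.stdAddChar (-(c * j)) *
          ZMod.stdAddChar (-(((a : ℕ) : ZMod (p ^ (k + 1))) * j)) := by
      rw [← AddChar.map_add_eq_mul]
      congr 1
      ring
    rw [Equiv.coe_addLeft]
    by_cases h : kap p k c = 0
    · rw [if_pos (e1.2 h), if_pos h, e2]
      ring
    · rw [if_neg (fun hh => h (e1.1 hh)), if_neg h]
      ring
  have key : ZMod.dft g = 0 := by
    ext j
    rw [ZMod.dft_apply, Pi.zero_apply]
    have e : ∑ c, (ZMod.stdAddChar (-(c * j)) : ℂ) • g c = ((p : ℂ) - K j) * F j := by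
      rw [sub_mul, ← L2 j, ← L1 j, Finset.mul_sum, ← Finset.sum_sub_distrib]
      refine Finset.sum_congr rfl fun c _ => ?_
      rw [hg, smul_eq_mul]
      ring
    rw [e]
    by_cases hj : ((p ^ k : ℕ) : ZMod (p ^ (k + 1))) * j = 0
    · have : K j = p := by
        rw [hK]
        simp only []
        have : ∀ c : ZMod (p ^ (k + 1)), (if kap p k c = 0 then
            (ZMod.stdAddChar (-(c * j)) : ℂ) else 0) = if kap p k c = 0 then 1 else 0 := by
          intro c
          by_cases h : kap p k c = 0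
          · rw [if_pos h, if_pos h]
            have h3 : p ^ k ∣ c.val := by
              rw [← ZMod.natCast_eq_zero_iff, ← h]
              conv_rhs => rw [← ZMod.natCast_zmod_val c]
              rw [map_natCast]
            obtain ⟨t, ht⟩ := h3
            have h4 : c * j = 0 := by
              rw [← ZMod.natCast_zmod_val c, ht, Nat.cast_mul, mul_comm _ (t : ZMod (p ^ (k + 1))),
                mul_assoc, hj, mul_zero]
            rw [h4, neg_zero, AddChar.map_zero_eq_one]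
          · rw [if_neg h, if_neg h]
        rw [Finset.sum_congr rfl fun c _ => this c, Finset.sum_boole, card_ker_kap hp]
      rw [this, sub_self, zero_mul]
    · have hF0 : F j = 0 := by
        set w : ℂ := ZMod.stdAddChar (-j) with hw
        have hw1 : w ^ p ^ (k + 1) = 1 := by
          rw [hw, ← AddChar.map_nsmul_eq_pow, nsmul_eq_mul, ZMod.natCast_self, zero_mul,
            AddChar.map_zero_eq_one]
        have hw2 : ¬ w ^ p ^ k = 1 := by
          rw [hw, ← AddChar.map_nsmul_eq_pow, nsmul_eq_mul]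
          intro h
          apply hj
          have := ZMod.injective_stdAddChar (h.trans (AddChar.map_zero_eq_one _).symm)
          rw [mul_neg, neg_eq_zero] at this
          exact this
        have : Fact p.Prime := ⟨hp⟩
        have hw3 : orderOf w = p ^ (k + 1) := orderOf_eq_prime_pow hw2 hw1
        have hw4 : orderOf (w * ζ) = p ^ (k + 1) * orderOf ζ := by
          rw [← hw3]
          refine (Commute.all w ζ).orderOf_mul_eq_mul_orderOf_of_coprime ?_
          rw [hw3]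
          exact Nat.Coprime.pow_left _ hm.symm
        have hw5 : IsPrimitiveRoot (w * ζ) (p ^ (k + 1) * orderOf ζ) := by
          rw [← hw4]
          exact IsPrimitiveRoot.orderOf _
        have hw6 : Polynomial.aeval (w * ζ) (Polynomial.cyclotomic (p ^ (k + 1) * orderOf ζ) ℤ) =
            0 := by
          have := hw5.isRoot_cyclotomic (Nat.pos_of_ne_zero
            (mul_ne_zero (pow_ne_zero _ hp.ne_zero) h0))
          rw [Polynomial.aeval_def, Polynomial.eval₂_eq_eval_map, algebraMap_int_eq,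
            Polynomial.map_cyclotomic_int]
          exact this
        have hw7 : Polynomial.aeval (w * ζ) (mask A) = 0 := by
          obtain ⟨r, hr⟩ := hA
          rw [hr, map_mul, hw6, zero_mul]
        rw [mask, map_sum] at hw7
        rw [hF, ← hw7]
        refine Finset.sum_congr rfl fun a _ => ?_
        rw [map_pow, Polynomial.aeval_X, mul_pow, hw, ← AddChar.map_nsmul_eq_pow, nsmul_eq_mul,
          mul_neg]
      rw [hF0, mul_zero]
  have h2 : g = 0 := (ZMod.dft (N := p ^ (k + 1)) (E := ℂ)).injective (by rw [key, map_zero])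
  exact sub_eq_zero.1 (congrFun h2 c)

theorem f3 {p k n : ℕ} (hp : p.Prime) (hn : n.Coprime p) {A T : Finset ℕ}
    (h : Til (p ^ (k + 1) * n) A T) (c d : ZMod (p ^ (k + 1))) :
    ((p : ℤ) • gr n (p ^ (k + 1)) A c - gr n (p ^ k) A (kap p k c)) *
      ((p : ℤ) • gr n (p ^ (k + 1)) T d - gr n (p ^ k) T (kap p k d)) = 0 := by
  have hn0 : 0 < n := Nat.pos_of_mul_pos_left h.1
  have : NeZero n := ⟨hn0.ne'⟩
  refine zero_of_ev _ fun ζ hζ => ?_
  rw [← evH_apply n hζ, map_mul, map_sub, map_sub, map_zsmul, map_zsmul, evH_gr, evH_gr, evH_gr,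
    evH_gr]
  have hdvd : orderOf ζ ∣ n := orderOf_dvd_of_pow_eq_one hζ
  have h0 : orderOf ζ ≠ 0 := fun h0 => hn0.ne' (Nat.eq_zero_of_zero_dvd (h0 ▸ hdvd))
  have hm : (orderOf ζ).Coprime p := Nat.Coprime.coprime_dvd_left hdvd hn
  have hM : p ^ (k + 1) * orderOf ζ ∣ p ^ (k + 1) * n := Nat.mul_dvd_mul_left _ hdvd
  have hM1 : p ^ (k + 1) * orderOf ζ ≠ 1 := by
    intro h1
    have := Nat.eq_one_of_mul_eq_one_right h1
    exact (Nat.one_lt_pow (Nat.succ_ne_zero k) hp.one_lt).ne' this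
  rcases root_or h hM hM1 with h1 | h1
  · have := evs_key hp hm h0 h1 c
    rw [zsmul_eq_mul, Int.cast_natCast, this, sub_self, zero_mul]
  · have := evs_key hp hm h0 h1 d
    rw [zsmul_eq_mul (evs (p ^ (k + 1)) T ζ d), Int.cast_natCast, this, sub_self, mul_zero]

end Pool.Agent.CMT
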