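import Pool.Agent.CMT.Defs

/-! Facts about sections.
(1) `A` is the disjoint union of `p` sections, so a common divisor of the masks of all sections
divides the mask of `A`.
(2) If `m` is coprime to `p`, `m ≠ 0`, and `Φ_m` divides the mask of every section of `A`, then
`Φ_{p^(k+1) m}` divides the mask of `A`: at a primitive `m`-th root `x`, the sum over `y` of
`A_{σ y}(x)` is 0 for all sections `σ`, hence `A_c(x)` depends only on `κ c`, where
`A_c(x) = ∑ x^a` over `a ∈ A`, `a ≡ c mod p^(k+1)`. A primitive `p^(k+1) m`-th root is `z = w x'`,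
with `w` primitive of order `p^(k+1)` and `x'` primitive of order `m`, `mask A (z) = ∑_c w^c A_c(x')`
`= 0` because the sum of `w^c` over a fibre of `κ` is 0.
(3) If all sections of `A` have the same cardinality, then `#{a ≡ c}` depends only on `κ c`, and
`Φ_{p^(k+1)}` divides the mask of `A` (the same proof with `x = 1`). -/

namespace Pool.Agent.CMT

open Finset

theorem kap_nat (p k n : ℕ) : kap p k ((n : ℕ) : ZMod (p ^ (k + 1))) = ((n : ℕ) : ZMod (p ^ k)) := by
  unfold kap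
  exact map_natCast _ n

theorem dvd_of_sec {p k : ℕ} (hp : p.Prime) (A : Finset ℕ) (f : Polynomial ℤ)
    (h : ∀ σ : ZMod (p ^ k) → ZMod (p ^ (k + 1)), (∀ y, kap p k (σ y) = y) →
      f ∣ mask (sec p k σ A)) : f ∣ mask A := by
  have hp0 : 0 < p := hp.pos
  have : NeZero (p ^ k) := ⟨(pow_pos hp0 k).ne'⟩
  have : NeZero (p ^ (k + 1)) := ⟨(pow_pos hp0 _).ne'⟩
  have hq : 0 < p ^ k := pow_pos hp0 k
  let σ : ℕ → ZMod (p ^ k) → ZMod (p ^ (k + 1)) := fun i y => ((y.val + i * p ^ k : ℕ) : ZMod _)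
  have hσ : ∀ i y, kap p k (σ i y) = y := by
    intro i y
    change kap p k ((y.val + i * p ^ k : ℕ) : ZMod (p ^ (k + 1))) = y
    rw [kap_nat, Nat.cast_add, Nat.cast_mul, ZMod.natCast_self, mul_zero, add_zero,
      ZMod.natCast_zmod_val]
  have hc : ∀ a i : ℕ, i < p → (((a : ℕ) : ZMod (p ^ (k + 1))) = σ i ((a : ℕ) : ZMod (p ^ k)) ↔
      i = a % p ^ (k + 1) / p ^ k) := by
    intro a i hi
    change ((a : ℕ) : ZMod (p ^ (k + 1))) =
      (((((a : ℕ) : ZMod (p ^ k)).val + i * p ^ k : ℕ) : ZMod (p ^ (k + 1)))) ↔ _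
    rw [ZMod.val_natCast, ZMod.natCast_eq_natCast_iff, Nat.ModEq]
    have h1 : a % p ^ k + i * p ^ k < p ^ (k + 1) := by
      have h2 : a % p ^ k < p ^ k := Nat.mod_lt _ hq
      calc a % p ^ k + i * p ^ k < p ^ k + i * p ^ k := by omega
        _ = (i + 1) * p ^ k := by ring
        _ ≤ p * p ^ k := Nat.mul_le_mul_right _ hi
        _ = p ^ (k + 1) := by ring
    rw [Nat.mod_eq_of_lt h1]
    have h3 : a % p ^ (k + 1) % p ^ k = a % p ^ k := by
      rw [pow_succ]
      exact Nat.mod_mul_right_mod a (p ^ k) p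
    have h4 := Nat.div_add_mod (a % p ^ (k + 1)) (p ^ k)
    constructor
    · intro h5
      rw [h5, Nat.add_mul_div_right _ _ hq, Nat.div_eq_of_lt (Nat.mod_lt _ hq), zero_add]
    · intro h5
      rw [← h4, h3, ← h5]
      ring
  have e : mask A = ∑ i ∈ range p, mask (sec p k (σ i) A) := by
    unfold mask sec
    simp_rw [Finset.sum_filter]
    rw [Finset.sum_comm]
    apply Finset.sum_congr rfl
    intro a _
    have hi : a % p ^ (k + 1) / p ^ k < p := by
      apply Nat.div_lt_of_lt_mul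
      rw [← pow_succ]
      exact Nat.mod_lt _ (pow_pos hp0 _)
    rw [Finset.sum_eq_single (a % p ^ (k + 1) / p ^ k)]
    · rw [if_pos ((hc a _ hi).2 rfl)]
    · intro b hb hne
      rw [if_neg]
      intro h1
      exact hne ((hc a b (mem_range.1 hb)).1 h1)
    · intro h1
      exact absurd (mem_range.2 hi) h1
  rw [e]
  exact Finset.dvd_sum fun i _ => h (σ i) (hσ i)

/-- the common part of (2) and (3) -/
theorem lift_core {p k : ℕ} (hp : p.Prime) (A : Finset ℕ) (x K : ℂ)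
    (h : ∀ σ : ZMod (p ^ k) → ZMod (p ^ (k + 1)), (∀ y, kap p k (σ y) = y) →
      ∑ a ∈ sec p k σ A, x ^ a = K) (w : ℂ) (hw : IsPrimitiveRoot w (p ^ (k + 1))) :
    ∑ a ∈ A, (w * x) ^ a = 0 := by
  classical
  have hp0 : 0 < p := hp.pos
  have : NeZero (p ^ k) := ⟨(pow_pos hp0 k).ne'⟩
  have : NeZero (p ^ (k + 1)) := ⟨(pow_pos hp0 _).ne'⟩
  set q : ℕ := p ^ (k + 1) with hq
  let F : ZMod q → ℂ := fun c => ∑ a ∈ A.filter (fun a => ((a : ℕ) : ZMod q) = c), x ^ a
  let W : ZMod q → ℂ := fun c => w ^ c.val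
  have hwq : w ^ q = 1 := hw.pow_eq_one
  have hWn : ∀ n : ℕ, W ((n : ℕ) : ZMod q) = w ^ n := by
    intro n
    change w ^ (((n : ℕ) : ZMod q).val) = w ^ n
    rw [ZMod.val_natCast, ← pow_mod_orderOf w n, ← hw.eq_orderOf]
  have hWadd : ∀ c d : ZMod q, W (c + d) = W c * W d := by
    intro c d
    have h1 : c + d = ((c.val + d.val : ℕ) : ZMod q) := by
      rw [Nat.cast_add, ZMod.natCast_zmod_val, ZMod.natCast_zmod_val]
    rw [h1, hWn, pow_add]
  -- sums over sections
  have hsec : ∀ σ : ZMod (p ^ k) → ZMod q, (∀ y, kap p k (σ y) = y) → ∑ y, F (σ y) = K := by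
    intro σ hσ
    rw [← h σ hσ]
    rw [← Finset.sum_fiberwise (sec p k σ A) (fun a => ((a : ℕ) : ZMod (p ^ k)))]
    apply Finset.sum_congr rfl
    intro y _
    apply Finset.sum_congr _ (fun _ _ => rfl)
    ext a
    unfold sec
    rw [Finset.mem_filter, Finset.mem_filter, Finset.mem_filter]
    constructor
    · rintro ⟨h1, h2⟩
      have h3 : ((a : ℕ) : ZMod (p ^ k)) = y := by
        rw [← kap_nat p k a]
        change kap p k ((a : ℕ) : ZMod q) = y
        rw [h2, hσ]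
      refine ⟨⟨h1, ?_⟩, h3⟩
      rw [h3]
      exact h2
    · rintro ⟨⟨h1, h2⟩, h3⟩
      rw [h3] at h2
      exact ⟨h1, h2⟩
  have hkq : kap p k ((p ^ k : ℕ) : ZMod q) = 0 := by
    rw [kap_nat, ZMod.natCast_self]
  have hF : ∀ c : ZMod q, F (c + ((p ^ k : ℕ) : ZMod q)) = F c := by
    intro c
    let τ : ZMod (p ^ k) → ZMod q := fun y => ((y.val : ℕ) : ZMod q)
    have hτ : ∀ y, kap p k (τ y) = y := by
      intro y
      change kap p k ((y.val : ℕ) : ZMod q) = y
      rw [kap_nat, ZMod.natCast_zmod_val]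
    have hup : ∀ c' : ZMod q, kap p k c' = kap p k c →
        F c' + ∑ y ∈ univ.erase (kap p k c), F (τ y) = K := by
      intro c' hc'
      rw [← hsec (Function.update τ (kap p k c) c')]
      · rw [← Finset.add_sum_erase univ _ (mem_univ (kap p k c)), Function.update_self]
        congr 1
        apply Finset.sum_congr rfl
        intro y hy
        rw [Function.update_of_ne (Finset.ne_of_mem_erase hy)]
      · intro y
        by_cases hy : y = kap p k c
        · rw [hy, Function.update_self, hc']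
        · rw [Function.update_of_ne hy, hτ]
    have h1 := hup c rfl
    have h2 := hup (c + ((p ^ k : ℕ) : ZMod q)) (by rw [map_add, hkq, add_zero])
    exact add_right_cancel (h2.trans h1.symm)
  have e : ∑ a ∈ A, (w * x) ^ a = ∑ c, W c * F c := by
    rw [← Finset.sum_fiberwise A (fun a => ((a : ℕ) : ZMod q))]
    apply Finset.sum_congr rfl
    intro c _
    rw [Finset.mul_sum]
    apply Finset.sum_congr rfl
    intro a ha
    rw [← (Finset.mem_filter.1 ha).2, hWn, mul_pow]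
  rw [e]
  have h1 : ∑ c, W c * F c = w ^ (p ^ k) * ∑ c, W c * F c := by
    conv_lhs => rw [← Equiv.sum_comp (Equiv.addRight ((p ^ k : ℕ) : ZMod q))]
    rw [Finset.mul_sum]
    apply Finset.sum_congr rfl
    intro c _
    rw [Equiv.coe_addRight, hF, hWadd, hWn]
    ring
  have h2 : w ^ (p ^ k) ≠ 1 := by
    intro h3
    have h4 := hw.dvd_of_pow_eq_one _ h3
    have h5 := Nat.le_of_dvd (pow_pos hp0 k) h4
    have h6 : p ^ k < p ^ (k + 1) := Nat.pow_lt_pow_right hp.one_lt (Nat.lt_succ_self k)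
    omega
  have h3 : (w ^ (p ^ k) - 1) * ∑ c, W c * F c = 0 := by
    rw [sub_mul, one_mul, ← h1, sub_self]
  rcases mul_eq_zero.1 h3 with h4 | h4
  · exact absurd (sub_eq_zero.1 h4) h2
  · exact h4

theorem aeval_mask (A : Finset ℕ) (z : ℂ) : Polynomial.aeval z (mask A) = ∑ a ∈ A, z ^ a := by
  unfold mask
  rw [map_sum]
  simp

theorem cyc_dvd {N : ℕ} (hN : 0 < N) {z : ℂ} (hz : IsPrimitiveRoot z N) (A : Finset ℕ)
    (h : ∑ a ∈ A, z ^ a = 0) : Polynomial.cyclotomic N ℤ ∣ mask A := by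
  rw [Polynomial.cyclotomic_eq_minpoly hz hN]
  apply minpoly.isIntegrallyClosed_dvd (hz.isIntegral hN)
  rw [aeval_mask, h]

theorem sum_zero_of_dvd {N : ℕ} (hN : 0 < N) {z : ℂ} (hz : IsPrimitiveRoot z N) (A : Finset ℕ)
    (h : Polynomial.cyclotomic N ℤ ∣ mask A) : ∑ a ∈ A, z ^ a = 0 := by
  rw [← aeval_mask]
  obtain ⟨g, hg⟩ := h
  rw [hg, map_mul, Polynomial.cyclotomic_eq_minpoly hz hN, minpoly.aeval, zero_mul]

theorem lift_of_sec {p k m : ℕ} (hp : p.Prime) (hm : m.Coprime p) (hm0 : 0 < m) (A : Finset ℕ)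
    (h : ∀ σ : ZMod (p ^ k) → ZMod (p ^ (k + 1)), (∀ y, kap p k (σ y) = y) →
      Polynomial.cyclotomic m ℤ ∣ mask (sec p k σ A)) :
    Polynomial.cyclotomic (p ^ (k + 1) * m) ℤ ∣ mask A := by
  have hq0 : 0 < p ^ (k + 1) := pow_pos hp.pos _
  have hx := Complex.isPrimitiveRoot_exp m hm0.ne'
  have hw := Complex.isPrimitiveRoot_exp (p ^ (k + 1)) hq0.ne'
  set x := Complex.exp (2 * Real.pi * Complex.I / (m : ℕ)) with hxd
  set w := Complex.exp (2 * Real.pi * Complex.I / ((p ^ (k + 1) : ℕ) : ℂ)) with hwd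
  have hz : IsPrimitiveRoot (w * x) (p ^ (k + 1) * m) := by
    rw [IsPrimitiveRoot.iff_orderOf]
    rw [(Commute.all w x).orderOf_mul_eq_mul_orderOf_of_coprime, ← hw.eq_orderOf, ← hx.eq_orderOf]
    rw [← hw.eq_orderOf, ← hx.eq_orderOf]
    exact (Nat.Coprime.pow_right _ hm).symm
  apply cyc_dvd (Nat.mul_pos hq0 hm0) hz
  apply lift_core hp A x 0 _ w hw
  intro σ hσ
  exact sum_zero_of_dvd hm0 hx _ (h σ hσ)

theorem lift_one {p k : ℕ} (hp : p.Prime) (A : Finset ℕ) (N : ℕ)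
    (h : ∀ σ : ZMod (p ^ k) → ZMod (p ^ (k + 1)), (∀ y, kap p k (σ y) = y) →
      (sec p k σ A).card = N) :
    Polynomial.cyclotomic (p ^ (k + 1)) ℤ ∣ mask A := by
  have hq0 : 0 < p ^ (k + 1) := pow_pos hp.pos _
  have hw := Complex.isPrimitiveRoot_exp (p ^ (k + 1)) hq0.ne'
  apply cyc_dvd hq0 hw
  have h1 := lift_core hp A 1 (N : ℂ) (fun σ hσ => by simp [h σ hσ]) _ hw
  simpa using h1

end Pool.Agent.CMT
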