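import Pool.Agent.CMT.Root

/-! The T1-lemma: in a tiling of `ℤ_M` no prime power `s | M` has `Φ_s | A` and `Φ_s | T`.
Proof: `M = |A| |T|` (`til_card`). Write `s = p^i`, `p^k ‖ M`. Let `J_A = {1 ≤ j ≤ k : Φ_{p^j} | mask A}`,
`J_T` similarly; `J_A ∪ J_T` is everything by `root_or`. The product of the distinct irreducible
`Φ_{p^j}`, `j ∈ J_A`, divides `mask A`; evaluate at 1: `p^|J_A|` divides `|A|`; same for `T`;
hence `p^(|J_A|+|J_T|)` divides `M`, so `|J_A|+|J_T| ≤ k` and the sets are disjoint. -/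

namespace Pool.Agent.CMT

open Finset

theorem t1_pow_dvd {p : ℕ} (hp : p.Prime) (A : Finset ℕ) (J : Finset ℕ)
    (hJ : ∀ j ∈ J, Polynomial.cyclotomic (p ^ (j + 1)) ℤ ∣ mask A) : p ^ J.card ∣ A.card := by
  have : Fact p.Prime := ⟨hp⟩
  have h1 : (∏ j ∈ J, Polynomial.cyclotomic (p ^ (j + 1)) ℤ) ∣ mask A := by
    have hmon : (∏ j ∈ J, Polynomial.cyclotomic (p ^ (j + 1)) ℤ).Monic :=
      Polynomial.monic_prod_of_monic _ _ fun j _ => Polynomial.cyclotomic.monic _ _
    rw [← Polynomial.map_dvd_map (Int.castRingHom ℚ) Int.cast_injective hmon,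
      Polynomial.map_prod]
    refine Finset.prod_dvd_of_coprime ?_ ?_
    · intro i _ j _ hij
      simp only [Function.onFun, Polynomial.map_cyclotomic]
      apply Polynomial.cyclotomic.isCoprime_rat
      intro h
      apply hij
      have := Nat.pow_right_injective hp.two_le h
      omega
    · intro j hj
      exact Polynomial.map_dvd _ (hJ j hj)
  have h2 := Polynomial.eval_dvd (x := (1 : ℤ)) h1
  rw [Polynomial.eval_prod] at h2
  have h3 : ∀ j ∈ J, Polynomial.eval (1 : ℤ) (Polynomial.cyclotomic (p ^ (j + 1)) ℤ) = (p : ℤ) :=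
    fun j _ => Polynomial.eval_one_cyclotomic_prime_pow j
  rw [Finset.prod_congr rfl h3, Finset.prod_const] at h2
  have h4 : Polynomial.eval (1 : ℤ) (mask A) = (A.card : ℤ) := by
    simp [mask, Polynomial.eval_finsetSum]
  rw [h4] at h2
  exact_mod_cast h2

theorem not_both {M : ℕ} {A T : Finset ℕ} (h : Til M A T) {s : ℕ} (hs : IsPrimePow s)
    (hsM : s ∣ M) (hA : Polynomial.cyclotomic s ℤ ∣ mask A)
    (hT : Polynomial.cyclotomic s ℤ ∣ mask T) : False := by
  classical
  obtain ⟨p, i, hp, hi, rfl⟩ := hs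
  rw [← Nat.prime_iff] at hp
  obtain ⟨i, rfl⟩ : ∃ i', i = i' + 1 := ⟨i - 1, by omega⟩
  have hM0 : M ≠ 0 := h.1.ne'
  set k := M.factorization p with hk
  have hik : i + 1 ≤ k := (hp.pow_dvd_iff_le_factorization hM0).mp hsM
  set JA := (range k).filter (fun j => Polynomial.cyclotomic (p ^ (j + 1)) ℤ ∣ mask A) with hJA
  set JT := (range k).filter (fun j => Polynomial.cyclotomic (p ^ (j + 1)) ℤ ∣ mask T) with hJT
  have h1 : p ^ JA.card ∣ A.card := t1_pow_dvd hp A JA fun j hj => (mem_filter.mp hj).2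
  have h2 : p ^ JT.card ∣ T.card := t1_pow_dvd hp T JT fun j hj => (mem_filter.mp hj).2
  have h3 : p ^ (JA.card + JT.card) ∣ M := by
    rw [pow_add, ← til_card h]
    exact mul_dvd_mul h1 h2
  have h4 : JA.card + JT.card ≤ k := (hp.pow_dvd_iff_le_factorization hM0).mp h3
  have h5 : JA ∪ JT = range k := by
    apply Finset.Subset.antisymm
    · exact union_subset (filter_subset _ _) (filter_subset _ _)
    · intro j hj
      have hjk : j + 1 ≤ k := mem_range.mp hj
      have hd : p ^ (j + 1) ∣ M := (hp.pow_dvd_iff_le_factorization hM0).mpr hjk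
      have hne : p ^ (j + 1) ≠ 1 := (Nat.one_lt_pow (by omega) hp.one_lt).ne'
      rcases root_or h hd hne with h6 | h6
      · exact mem_union_left _ (mem_filter.mpr ⟨hj, h6⟩)
      · exact mem_union_right _ (mem_filter.mpr ⟨hj, h6⟩)
  have h7 : i ∈ JA ∩ JT := by
    rw [mem_inter]
    exact ⟨mem_filter.mpr ⟨mem_range.mpr (by omega), hA⟩,
      mem_filter.mpr ⟨mem_range.mpr (by omega), hT⟩⟩
  have h8 : 0 < (JA ∩ JT).card := card_pos.mpr ⟨i, h7⟩
  have h9 := card_union_add_card_inter JA JT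
  rw [h5, card_range] at h9
  omega

end Pool.Agent.CMT
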