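import Pool.Agent.CMT.Sec
import Pool.Agent.CMT.T1
import Pool.Agent.CMT.Lift

/-! T2 for tilings of `ℤ_M`, by strong induction on `M` (for all `A`, `T`, `S`).
See note 2669 (D). Take `s0 ∈ S`, `s0 = p^i`, write `M = p^(k+1) n`, `n` coprime to `p`, and apply
`dich`.
Case (b) (`Til (p^k n) A (sec σ T)` for all sections): `Φ_{p^(k+1)} | T` by `lift_one` below, so
`p^(k+1) ∉ S` by `not_both`; all `s ∈ S` divide `p^k n`; induction.
Case (a), `p^(k+1) ∉ S`: for every section `σ` and `s ∈ S`, `Φ_s | sec σ A` (`root_or`; else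
`Φ_s | T`, against `not_both`), by induction `Φ_{∏ S} | sec σ A`, and `dvd_of_sec`.
Case (a), `p^(k+1) ∈ S`: `S' = S.erase (p^(k+1))`; if empty, done; otherwise by induction
`Φ_{∏ S'} | sec σ A` for all `σ`, and `lift_of_sec`. -/

namespace Pool.Agent.CMT

open Finset

private theorem ind_dvd {p k n s : ℕ} (hp : p.Prime) (hn : n.Coprime p) (hs : IsPrimePow s)
    (hsM : s ∣ p ^ (k + 1) * n) (hne : s ≠ p ^ (k + 1)) : s ∣ p ^ k * n := by
  obtain ⟨r, j, hr, hj, rfl⟩ := (isPrimePow_nat_iff s).1 hs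
  rcases eq_or_ne r p with h | h
  · subst h
    have h1 : r ^ j ∣ r ^ (k + 1) :=
      (Nat.Coprime.pow_left j hn.symm).dvd_of_dvd_mul_right hsM
    have h2 : j ≤ k + 1 := (Nat.pow_dvd_pow_iff_le_right hr.one_lt).1 h1
    have h3 : j ≠ k + 1 := by
      rintro rfl
      exact hne rfl
    exact dvd_mul_of_dvd_left (pow_dvd_pow r (by omega)) n
  · have h1 : (r ^ j).Coprime (p ^ (k + 1)) :=
      Nat.Coprime.pow _ _ ((Nat.coprime_primes hr hp).2 h)
    exact dvd_mul_of_dvd_right (h1.dvd_of_dvd_mul_left hsM) _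

private theorem ind_sec (p k : ℕ) : ∃ σ : ZMod (p ^ k) → ZMod (p ^ (k + 1)),
    ∀ y, kap p k (σ y) = y :=
  ⟨Function.surjInv (ZMod.ringHom_surjective (kap p k)),
    Function.surjInv_eq (ZMod.ringHom_surjective (kap p k))⟩

theorem t2 {M : ℕ} {A T : Finset ℕ} (h : Til M A T) (S : Finset ℕ) (hS : S.Nonempty)
    (hpp : ∀ s ∈ S, IsPrimePow s) (hM : ∀ s ∈ S, s ∣ M)
    (hA : ∀ s ∈ S, Polynomial.cyclotomic s ℤ ∣ mask A)
    (hc : (S : Set ℕ).Pairwise Nat.Coprime) :
    Polynomial.cyclotomic (∏ s ∈ S, s) ℤ ∣ mask A := by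
  induction M using Nat.strong_induction_on generalizing A T S with
  | _ M ih =>
  obtain ⟨s0, hs0⟩ := hS
  have hM0 : M ≠ 0 := h.1.ne'
  obtain ⟨p, i, hp, hi, hpi⟩ := (isPrimePow_nat_iff s0).1 (hpp s0 hs0)
  have hpM : p ∣ M := (dvd_pow_self p hi.ne').trans (hpi ▸ hM s0 hs0)
  obtain ⟨v, n, hpn, hMv⟩ := Nat.exists_eq_pow_mul_and_not_dvd hM0 p hp.ne_one
  have hn : n.Coprime p := ((Nat.Prime.coprime_iff_not_dvd hp).2 hpn).symm
  have hn0 : 0 < n := by
    rcases Nat.eq_zero_or_pos n with h0 | h0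
    · exact absurd (h0 ▸ dvd_zero p) hpn
    · exact h0
  obtain ⟨k, rfl⟩ : ∃ k, v = k + 1 := by
    rcases v with _ | k
    · exact absurd (by simpa [hMv] using hpM) hpn
    · exact ⟨k, rfl⟩
  subst hMv
  have hlt : p ^ k * n < p ^ (k + 1) * n := by
    refine Nat.mul_lt_mul_of_pos_right ?_ hn0
    exact Nat.pow_lt_pow_right hp.one_lt (Nat.lt_succ_self k)
  rcases dich hp hn h with hd | hd
  · -- case (a)
    have hC : ∀ σ : ZMod (p ^ k) → ZMod (p ^ (k + 1)), (∀ y, kap p k (σ y) = y) →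
        ∀ s ∈ S, s ≠ p ^ (k + 1) → Polynomial.cyclotomic s ℤ ∣ mask (sec p k σ A) := by
      intro σ hσ s hs hne
      rcases root_or (hd σ hσ) (ind_dvd hp hn (hpp s hs) (hM s hs) hne) (hpp s hs).ne_one
        with h1 | h1
      · exact h1
      · exact (not_both h (hpp s hs) (hM s hs) (hA s hs) h1).elim
    by_cases hmem : p ^ (k + 1) ∈ S
    · rcases (S.erase (p ^ (k + 1))).eq_empty_or_nonempty with he | he
      · have h1 : S = {p ^ (k + 1)} := by
          rw [← Finset.insert_erase hmem, he, insert_empty_eq]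
        rw [h1, Finset.prod_singleton]
        exact hA _ hmem
      · rw [← Finset.mul_prod_erase S (fun s => s) hmem]
        refine lift_of_sec hp ?_ ?_ A fun σ hσ => ?_
        · refine Nat.Coprime.prod_left fun s hs => ?_
          obtain ⟨hne, hsS⟩ := Finset.mem_erase.1 hs
          exact Nat.Coprime.coprime_dvd_right (dvd_pow_self p (Nat.succ_ne_zero k))
            (hc (Finset.mem_coe.2 hsS) (Finset.mem_coe.2 hmem) hne)
        · exact Finset.prod_pos fun s hs =>
            (hpp s (Finset.mem_of_mem_erase hs)).pos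
        · refine ih _ hlt (hd σ hσ) _ he (fun s hs => hpp s (Finset.mem_of_mem_erase hs))
            (fun s hs => ?_) (fun s hs => ?_) (hc.mono ?_)
          · obtain ⟨hne, hsS⟩ := Finset.mem_erase.1 hs
            exact ind_dvd hp hn (hpp s hsS) (hM s hsS) hne
          · obtain ⟨hne, hsS⟩ := Finset.mem_erase.1 hs
            exact hC σ hσ s hsS hne
          · exact Finset.coe_subset.2 (Finset.erase_subset _ _)
    · have hne : ∀ s ∈ S, s ≠ p ^ (k + 1) := by
        rintro s hs rfl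
        exact hmem hs
      refine dvd_of_sec (k := k) hp A _ fun σ hσ => ?_
      exact ih _ hlt (hd σ hσ) S ⟨s0, hs0⟩ hpp
        (fun s hs => ind_dvd hp hn (hpp s hs) (hM s hs) (hne s hs))
        (fun s hs => hC σ hσ s hs (hne s hs)) hc
  · -- case (b)
    have hA0 : 0 < A.card := by
      have h1 := til_card h
      refine Nat.pos_of_ne_zero fun h0 => ?_
      rw [h0, zero_mul] at h1
      exact hM0 h1.symm
    have hT : Polynomial.cyclotomic (p ^ (k + 1)) ℤ ∣ mask T := by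
      refine lift_one hp T (p ^ k * n / A.card) fun σ hσ => ?_
      have h1 := til_card (hd σ hσ)
      rw [← h1, Nat.mul_div_cancel_left _ hA0]
    have hne : ∀ s ∈ S, s ≠ p ^ (k + 1) := by
      rintro s hs rfl
      exact not_both h (hpp _ hs) (hM _ hs) (hA _ hs) hT
    obtain ⟨σ, hσ⟩ := ind_sec p k
    exact ih _ hlt (hd σ hσ) S ⟨s0, hs0⟩ hpp
      (fun s hs => ind_dvd hp hn (hpp s hs) (hM s hs) (hne s hs)) hA hc

end Pool.Agent.CMT
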