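import Pool.Agent.CMT.Defs

/-! The group algebra `F_p[G]` is reduced if `p` does not divide `|G|`.
Proof: `x * x = 0` gives `x ^ p = 0`; in characteristic `p`,
`x ^ p = ∑ g, single (p • g) ((x.coeff g) ^ p)` (`sum_pow_char`), and `g ↦ p • g` is injective. -/

namespace Pool.Agent.CMT

open Finset

theorem red {p : ℕ} (hp : p.Prime) {G : Type} [AddCommGroup G] [Fintype G]
    (hG : (Fintype.card G).Coprime p) (x : AddMonoidAlgebra (ZMod p) G) (hx : x * x = 0) :
    x = 0 := by
  classical
  have : Fact p.Prime := ⟨hp⟩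
  have : CharP (AddMonoidAlgebra (ZMod p) G) p := by
    have hinj : Function.Injective (algebraMap (ZMod p) (AddMonoidAlgebra (ZMod p) G)) :=
      FaithfulSMul.algebraMap_injective _ _
    exact charP_of_injective_algebraMap hinj p
  have hinj : ∀ g h : G, p • g = p • h → g = h := by
    intro g h hgh
    have h1 : p • (g - h) = 0 := by rw [nsmul_sub, hgh, sub_self]
    have h2 : Fintype.card G • (g - h) = 0 := card_nsmul_eq_zero
    have h3 : addOrderOf (g - h) ∣ 1 := by
      rw [← hG]
      exact Nat.dvd_gcd (addOrderOf_dvd_of_nsmul_eq_zero h2) (addOrderOf_dvd_of_nsmul_eq_zero h1)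
    have h4 : g - h = 0 := by
      rw [← AddMonoid.addOrderOf_eq_one_iff]
      exact Nat.dvd_one.mp h3
    exact sub_eq_zero.mp h4
  have hsum : x = ∑ g : G, AddMonoidAlgebra.single g (x.coeff g) := by
    apply AddMonoidAlgebra.coeff_injective
    rw [AddMonoidAlgebra.coeff_sum]
    ext g
    simp
  have hxp : x ^ p = 0 := by
    rw [← pow_mul_pow_sub x hp.two_le, pow_two, hx, zero_mul]
  have hxp2 : ∑ g : G, AddMonoidAlgebra.single (p • g) (x.coeff g) = (0 : AddMonoidAlgebra (ZMod p) G) := by
    rw [← hxp]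
    conv_rhs => rw [hsum]
    rw [sum_pow_char]
    refine Finset.sum_congr rfl fun g _ => ?_
    rw [AddMonoidAlgebra.single_pow, ZMod.pow_card]
  apply AddMonoidAlgebra.coeff_injective
  ext g
  have h5 := congrArg (fun z : AddMonoidAlgebra (ZMod p) G => z.coeff (p • g)) hxp2
  simp only [AddMonoidAlgebra.coeff_sum, Finsupp.finsetSum_apply, AddMonoidAlgebra.coeff_single,
    Finsupp.single_apply, AddMonoidAlgebra.coeff_zero, Finsupp.zero_apply] at h5
  rw [Finset.sum_eq_single g] at h5
  · simpa using h5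
  · intro b _ hb
    rw [if_neg]
    intro h
    exact hb (hinj _ _ h)
  · intro h
    exact absurd (mem_univ g) h

end Pool.Agent.CMT
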