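import Pool.Agent.CMT.Defs

/-! Elementary facts about tilings of `ℤ_M` and the group ring elements `gr`. -/

namespace Pool.Agent.CMT

open Finset

theorem Til.symm {M : ℕ} {A T : Finset ℕ} (h : Til M A T) : Til M T A := by
  refine ⟨h.1, fun r => ?_⟩
  rw [← h.2 r]
  refine Finset.card_bij (fun x _ => (x.2, x.1)) ?_ ?_ ?_
  · intro x hx
    simp only [mem_filter, mem_product] at hx ⊢
    exact ⟨⟨hx.1.2, hx.1.1⟩, by rw [add_comm]; exact hx.2⟩
  · intro x _ y _ hxy
    simp only [Prod.mk.injEq] at hxy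
    exact Prod.ext hxy.2 hxy.1
  · intro x hx
    simp only [mem_filter, mem_product] at hx
    refine ⟨(x.2, x.1), ?_, rfl⟩
    simp only [mem_filter, mem_product]
    exact ⟨⟨hx.1.2, hx.1.1⟩, by rw [add_comm]; exact hx.2⟩

/-- The product of two residue parts, summed over the classes with sum `e`. -/
lemma sum_gr_mul {q n : ℕ} [NeZero q] (A T : Finset ℕ) (e : ZMod q) :
    ∑ c, gr n q A c * gr n q T (e - c) =
      ∑ x ∈ (A ×ˢ T).filter (fun x => ((x.1 + x.2 : ℕ) : ZMod q) = e),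
        AddMonoidAlgebra.single ((x.1 + x.2 : ℕ) : ZMod n) 1 := by
  classical
  have h1 : ∀ c : ZMod q, gr n q A c * gr n q T (e - c) =
      ∑ x ∈ ((A ×ˢ T).filter (fun x => ((x.1 + x.2 : ℕ) : ZMod q) = e)).filter
        (fun x => ((x.1 : ℕ) : ZMod q) = c),
        AddMonoidAlgebra.single ((x.1 + x.2 : ℕ) : ZMod n) 1 := by
    intro c
    unfold gr
    rw [Finset.sum_mul_sum, ← Finset.sum_product']
    have h2 : ((A ×ˢ T).filter (fun x => ((x.1 + x.2 : ℕ) : ZMod q) = e)).filter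
        (fun x => ((x.1 : ℕ) : ZMod q) = c) =
        (A.filter (fun a => ((a : ℕ) : ZMod q) = c)) ×ˢ
          (T.filter (fun a => ((a : ℕ) : ZMod q) = e - c)) := by
      ext x
      simp only [mem_filter, mem_product, Nat.cast_add]
      constructor
      · rintro ⟨⟨⟨h1, h2⟩, h3⟩, h4⟩
        refine ⟨⟨h1, h4⟩, h2, ?_⟩
        rw [← h3, h4]
        ring
      · rintro ⟨⟨h1, h2⟩, h3, h4⟩
        refine ⟨⟨⟨h1, h3⟩, ?_⟩, h2⟩
        rw [h2, h4]
        ring
    rw [h2]
    refine Finset.sum_congr rfl fun x _ => ?_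
    rw [AddMonoidAlgebra.single_mul_single, mul_one, Nat.cast_add]
  rw [Finset.sum_congr rfl fun c _ => h1 c]
  exact Finset.sum_fiberwise_of_maps_to (fun x _ => Finset.mem_univ _) _

/-- Coefficients. -/
lemma coeff_sum_single {n : ℕ} (F : Finset (ℕ × ℕ)) (g : ZMod n) :
    (∑ x ∈ F, AddMonoidAlgebra.single ((x.1 + x.2 : ℕ) : ZMod n) (1 : ℤ)).coeff g =
      ((F.filter (fun x => ((x.1 + x.2 : ℕ) : ZMod n) = g)).card : ℤ) := by
  classical
  rw [AddMonoidAlgebra.coeff_sum, Finsupp.finset_sum_apply]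
  simp only [AddMonoidAlgebra.coeff_single, Finsupp.single_apply]
  rw [Finset.sum_ite, Finset.sum_const_zero, add_zero, Finset.sum_const, nsmul_eq_mul, mul_one]

lemma coeff_nrm {n : ℕ} [NeZero n] (g : ZMod n) : (nrm ℤ (ZMod n)).coeff g = 1 := by
  classical
  unfold nrm
  rw [AddMonoidAlgebra.coeff_sum, Finsupp.finset_sum_apply]
  simp [Finsupp.single_apply]

/-- The group ring identity is equivalent to a count. -/
lemma gr_iff {q n : ℕ} [NeZero q] [NeZero n] (A T : Finset ℕ) (e : ZMod q) :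
    ∑ c, gr n q A c * gr n q T (e - c) = nrm ℤ (ZMod n) ↔
      ∀ g : ZMod n, ((A ×ˢ T).filter (fun x => ((x.1 + x.2 : ℕ) : ZMod q) = e ∧
        ((x.1 + x.2 : ℕ) : ZMod n) = g)).card = 1 := by
  rw [sum_gr_mul]
  constructor
  · intro h g
    have h1 := congrArg (fun u => u.coeff g) h
    simp only [coeff_sum_single, coeff_nrm, Finset.filter_filter] at h1
    exact_mod_cast h1
  · intro h
    refine AddMonoidAlgebra.ext (Finsupp.ext fun g => ?_)
    rw [coeff_sum_single, coeff_nrm, Finset.filter_filter]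
    exact_mod_cast h g

/-- The tiling condition via the Chinese remainder theorem. -/
lemma til_iff {q n : ℕ} [NeZero q] [NeZero n] (hqn : q.Coprime n) (A T : Finset ℕ) :
    Til (q * n) A T ↔ ∀ (e : ZMod q) (g : ZMod n),
      ((A ×ˢ T).filter (fun x => ((x.1 + x.2 : ℕ) : ZMod q) = e ∧
        ((x.1 + x.2 : ℕ) : ZMod n) = g)).card = 1 := by
  have key : ∀ r : ZMod (q * n), (A ×ˢ T).filter (fun x => ((x.1 + x.2 : ℕ) : ZMod (q * n)) = r) =
      (A ×ˢ T).filter (fun x => ((x.1 + x.2 : ℕ) : ZMod q) = (ZMod.chineseRemainder hqn r).1 ∧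
        ((x.1 + x.2 : ℕ) : ZMod n) = (ZMod.chineseRemainder hqn r).2) := by
    intro r
    refine Finset.filter_congr fun x _ => ?_
    rw [← (ZMod.chineseRemainder hqn).injective.eq_iff, map_natCast, Prod.ext_iff]
    simp
  unfold Til
  constructor
  · intro h e g
    have h1 := h.2 ((ZMod.chineseRemainder hqn).symm (e, g))
    rw [key] at h1
    simpa using h1
  · intro h
    refine ⟨Nat.mul_pos (NeZero.pos q) (NeZero.pos n), fun r => ?_⟩
    rw [key]
    exact h _ _

/-- (H) for a tiling: coefficient of `g` on the left is the number of pairs `(a, t)` with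
`a + t ≡ e mod q` and `a + t ≡ g mod n`; CRT. -/
theorem til_H {q n : ℕ} [NeZero q] [NeZero n] (hqn : q.Coprime n) {A T : Finset ℕ}
    (h : Til (q * n) A T) (e : ZMod q) :
    ∑ c, gr n q A c * gr n q T (e - c) = nrm ℤ (ZMod n) :=
  (gr_iff A T e).2 ((til_iff hqn A T).1 h e)

theorem bar_gr {p k n : ℕ} [NeZero (p ^ (k + 1))] (A : Finset ℕ) (y : ZMod (p ^ k)) :
    bar (kap p k) (gr n (p ^ (k + 1)) A) y = gr n (p ^ k) A y := by
  classical
  unfold bar gr
  rw [← Finset.sum_fiberwise_of_maps_to (s := A.filter (fun a => ((a : ℕ) : ZMod (p ^ k)) = y))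
    (t := univ.filter (fun c => kap p k c = y)) (g := fun a => ((a : ℕ) : ZMod (p ^ (k + 1))))]
  · refine Finset.sum_congr rfl fun c hc => ?_
    refine Finset.sum_congr ?_ fun _ _ => rfl
    rw [mem_filter] at hc
    ext a
    simp only [mem_filter]
    constructor
    · rintro ⟨h1, h2⟩
      refine ⟨⟨h1, ?_⟩, h2⟩
      rw [← hc.2, ← h2, map_natCast]
    · rintro ⟨⟨h1, _⟩, h3⟩
      exact ⟨h1, h3⟩
  · intro a ha
    rw [mem_filter] at ha
    simp only [mem_filter, mem_univ, true_and, map_natCast]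
    exact ha.2

/-- The part of `A` over a section value is the part of the section subset. -/
lemma gr_sec {p k n : ℕ} (A : Finset ℕ) (σ : ZMod (p ^ k) → ZMod (p ^ (k + 1)))
    (hσ : ∀ y, kap p k (σ y) = y) (y : ZMod (p ^ k)) :
    gr n (p ^ (k + 1)) A (σ y) = gr n (p ^ k) (sec p k σ A) y := by
  unfold gr sec
  refine Finset.sum_congr ?_ fun _ _ => rfl
  ext a
  simp only [mem_filter]
  constructor
  · rintro ⟨h1, h2⟩
    have h3 : ((a : ℕ) : ZMod (p ^ k)) = y := by
      rw [← hσ y, ← h2, map_natCast]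
    exact ⟨⟨h1, by rw [h3]; exact h2⟩, h3⟩
  · rintro ⟨⟨h1, h2⟩, h3⟩
    exact ⟨h1, by rw [h2, h3]⟩

/-- Converse of `til_H` for the sections: the coefficient of `g` on the left is the number of pairs
`(a, t)` in `A × T` with `a ≡ σ (a mod p^k) mod p^(k+1)`, `a + t ≡ w mod p^k`, `a + t ≡ g mod n`. -/
theorem til_of_H {p k n : ℕ} [NeZero (p ^ k)] [NeZero n] (hqn : (p ^ k).Coprime n)
    {A T : Finset ℕ} (σ : ZMod (p ^ k) → ZMod (p ^ (k + 1))) (hσ : ∀ y, kap p k (σ y) = y)
    (h : ∀ w : ZMod (p ^ k), ∑ y, gr n (p ^ (k + 1)) A (σ y) * gr n (p ^ k) T (w - y) =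
      nrm ℤ (ZMod n)) : Til (p ^ k * n) (sec p k σ A) T := by
  rw [til_iff hqn]
  intro e
  rw [← gr_iff]
  rw [← h e]
  refine Finset.sum_congr rfl fun y _ => ?_
  rw [gr_sec A σ hσ]

end Pool.Agent.CMT
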