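import Pool.Agent.CMT.Upt
import Pool.Agent.CMT.F3
import Pool.Agent.CMT.SecA

/-! The dichotomy for tilings: slab reduction for all sections. See note 2669 (D).
Apply `upt` with `κ = kap p k`, `G = ℤ_n`, `A = gr n (p^(k+1)) A`, etc. In case (a), for a section
`σ`: `p ∑_y A_{σ y} Tb_{w-y} = ∑_y Ab_y Tb_{w-y} = ∑_{κ e = w} ∑_c A_c T_{e-c} = p N`, cancel `p`
and use `til_of_H`. Case (b): the same with `A`, `T` exchanged (`Til.symm`). -/

namespace Pool.Agent.CMT

open Finset

/-- Every fibre of `kap p k` has `p` elements. -/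
theorem card_fiber_kap {p k : ℕ} (hp : p.Prime) [NeZero (p ^ (k + 1))] [NeZero (p ^ k)]
    (y : ZMod (p ^ k)) :
    ((univ : Finset (ZMod (p ^ (k + 1)))).filter (fun c => kap p k c = y)).card = p := by
  have hsurj : Function.Surjective (kap p k) := by
    unfold kap
    exact ZMod.castHom_surjective _
  have hconst : ∀ y' : ZMod (p ^ k),
      ((univ : Finset (ZMod (p ^ (k + 1)))).filter (fun c => kap p k c = y')).card =
      ((univ : Finset (ZMod (p ^ (k + 1)))).filter (fun c => kap p k c = y)).card := by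
    intro y'
    obtain ⟨z, hz⟩ := hsurj (y' - y)
    refine Finset.card_bij (fun c _ => c - z) ?_ ?_ ?_
    · intro c hc
      simp only [Finset.mem_filter, Finset.mem_univ, true_and] at hc ⊢
      rw [map_sub, hc, hz]; abel
    · intro a _ b _ hab
      exact sub_left_injective hab
    · intro b hb
      simp only [Finset.mem_filter, Finset.mem_univ, true_and] at hb
      refine ⟨b + z, ?_, by abel⟩
      simp only [Finset.mem_filter, Finset.mem_univ, true_and]
      rw [map_add, hb, hz]; abel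
  have hsum : ∑ y' : ZMod (p ^ k),
      ((univ : Finset (ZMod (p ^ (k + 1)))).filter (fun c => kap p k c = y')).card =
      p ^ (k + 1) := by
    rw [← Finset.card_eq_sum_card_fiberwise (f := kap p k) (s := univ) (t := univ)
      (fun x _ => Finset.mem_coe.2 (Finset.mem_univ _))]
    simp [ZMod.card]
  rw [Finset.sum_congr rfl (fun y' _ => hconst y')] at hsum
  simp only [Finset.sum_const, Finset.card_univ, ZMod.card, smul_eq_mul] at hsum
  have hpk : 0 < p ^ k := pow_pos hp.pos k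
  exact Nat.eq_of_mul_eq_mul_left hpk (hsum.trans (pow_succ p k))

/-- `∑_y Ab_y Tb_{w-y} = p N`. -/
theorem sum_bar_bar {p k n : ℕ} (hp : p.Prime) [NeZero (p ^ (k + 1))] [NeZero (p ^ k)] [NeZero n]
    (hqn : (p ^ (k + 1)).Coprime n) {A T : Finset ℕ} (h : Til (p ^ (k + 1) * n) A T)
    (w : ZMod (p ^ k)) :
    ∑ y, gr n (p ^ k) A y * gr n (p ^ k) T (w - y) = (p : ℤ) • nrm ℤ (ZMod n) := by
  have h1 : ∑ e ∈ (univ : Finset (ZMod (p ^ (k + 1)))).filter (fun e => kap p k e = w),
      ∑ c, gr n (p ^ (k + 1)) A c * gr n (p ^ (k + 1)) T (e - c) = (p : ℤ) • nrm ℤ (ZMod n) := by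
    rw [Finset.sum_congr rfl (fun e _ => til_H hqn h e), Finset.sum_const, card_fiber_kap hp w]
    simp
  rw [← h1, Finset.sum_comm]
  have h2 : ∀ c : ZMod (p ^ (k + 1)),
      ∑ e ∈ (univ : Finset (ZMod (p ^ (k + 1)))).filter (fun e => kap p k e = w),
        gr n (p ^ (k + 1)) A c * gr n (p ^ (k + 1)) T (e - c) =
      gr n (p ^ (k + 1)) A c * gr n (p ^ k) T (w - kap p k c) := by
    intro c
    rw [← Finset.mul_sum, ← bar_gr T (w - kap p k c)]
    congr 1
    unfold bar
    refine Finset.sum_bij (fun e _ => e - c) ?_ ?_ ?_ ?_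
    · intro e he
      simp only [Finset.mem_filter, Finset.mem_univ, true_and] at he ⊢
      rw [map_sub, he]
    · intro a _ b _ hab
      exact sub_left_injective hab
    · intro b hb
      simp only [Finset.mem_filter, Finset.mem_univ, true_and] at hb
      refine ⟨b + c, ?_, by abel⟩
      simp only [Finset.mem_filter, Finset.mem_univ, true_and]
      rw [map_add, hb]; abel
    · intro e _
      rfl
  rw [Finset.sum_congr rfl (fun c _ => h2 c)]
  rw [← Finset.sum_fiberwise (s := univ) (g := fun c => kap p k c)]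
  refine Finset.sum_congr rfl (fun y _ => ?_)
  rw [← bar_gr A y]
  unfold bar
  rw [Finset.sum_mul]
  refine Finset.sum_congr rfl (fun c hc => ?_)
  simp only [Finset.mem_filter, Finset.mem_univ, true_and] at hc
  rw [hc]

theorem gr_nonneg {n q : ℕ} (A : Finset ℕ) (c : ZMod q) (g : ZMod n) :
    0 ≤ (gr n q A c).coeff g := by
  unfold gr
  rw [AddMonoidAlgebra.coeff_sum]
  rw [Finsupp.finsetSum_apply]
  refine Finset.sum_nonneg (fun a _ => ?_)
  rw [AddMonoidAlgebra.coeff_single]
  rw [Finsupp.single_apply]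
  split_ifs <;> norm_num

theorem dich {p k n : ℕ} (hp : p.Prime) (hn : n.Coprime p) {A T : Finset ℕ}
    (h : Til (p ^ (k + 1) * n) A T) :
    (∀ σ : ZMod (p ^ k) → ZMod (p ^ (k + 1)), (∀ y, kap p k (σ y) = y) →
      Til (p ^ k * n) (sec p k σ A) T) ∨
    (∀ σ : ZMod (p ^ k) → ZMod (p ^ (k + 1)), (∀ y, kap p k (σ y) = y) →
      Til (p ^ k * n) A (sec p k σ T)) := by
  have hn0 : n ≠ 0 := by
    rintro rfl
    have := h.1
    simp at this
  haveI : NeZero n := ⟨hn0⟩
  haveI : NeZero (p ^ (k + 1)) := ⟨(pow_pos hp.pos _).ne'⟩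
  haveI : NeZero (p ^ k) := ⟨(pow_pos hp.pos _).ne'⟩
  have hqn1 : (p ^ (k + 1)).Coprime n := (Nat.Coprime.pow_right (k + 1) hn).symm
  have hqn : (p ^ k).Coprime n := (Nat.Coprime.pow_right k hn).symm
  have hcancel : ∀ x : AddMonoidAlgebra ℤ (ZMod n), (p : ℤ) • x = (p : ℤ) • nrm ℤ (ZMod n) →
      x = nrm ℤ (ZMod n) := by
    intro x hx
    have hp0 : (p : ℤ) ≠ 0 := by exact_mod_cast hp.ne_zero
    ext g
    have := congrArg (fun z : AddMonoidAlgebra ℤ (ZMod n) => z.coeff g) hx
    simp only [AddMonoidAlgebra.coeff_smul, Finsupp.smul_apply, smul_eq_mul] at this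
    exact mul_left_cancel₀ hp0 this
  have hU := upt hp (G := ZMod n) (by rw [ZMod.card]; exact hn) (Q := ZMod (p ^ (k + 1)))
    (Qb := ZMod (p ^ k)) (kap p k : ZMod (p ^ (k + 1)) →+ ZMod (p ^ k))
    (fun y => card_fiber_kap hp y) (gr n (p ^ (k + 1)) A) (gr n (p ^ (k + 1)) T)
    (fun c g => gr_nonneg A c g) (fun c g => gr_nonneg T c g) (fun e => til_H hqn1 h e)
    (fun c d => by
      have h1 := bar_gr (p := p) (k := k) (n := n) A (kap p k c)
      have h2 := bar_gr (p := p) (k := k) (n := n) T (kap p k d)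
      have h3 := f3 hp hn h c d
      rw [← h1, ← h2] at h3
      exact h3)
  rcases hU with hU | hU
  · left
    intro σ hσ
    refine til_of_H hqn σ hσ (fun w => hcancel _ ?_)
    rw [← sum_bar_bar hp hqn1 h w, Finset.smul_sum]
    refine Finset.sum_congr rfl (fun y _ => ?_)
    have h1 := hU (σ y) (w - y)
    have h2 := bar_gr (p := p) (k := k) (n := n) T (w - y)
    have h3 := bar_gr (p := p) (k := k) (n := n) A (kap p k (σ y))
    have h4 : bar (⇑(kap p k : ZMod (p ^ (k + 1)) →+ ZMod (p ^ k))) (gr n (p ^ (k + 1)) T) (w - y) =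
      gr n (p ^ k) T (w - y) := h2
    have h5 : bar (⇑(kap p k : ZMod (p ^ (k + 1)) →+ ZMod (p ^ k))) (gr n (p ^ (k + 1)) A)
      ((kap p k : ZMod (p ^ (k + 1)) →+ ZMod (p ^ k)) (σ y)) = gr n (p ^ k) A y := by
      have : gr n (p ^ k) A (kap p k (σ y)) = gr n (p ^ k) A y := by rw [hσ]
      rw [← this]; exact h3
    rw [h4, h5] at h1
    exact h1
  · right
    intro σ hσ
    apply Til.symm
    refine til_of_H hqn σ hσ (fun w => hcancel _ ?_)
    have hs : Til (p ^ (k + 1) * n) T A := h.symm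
    rw [← sum_bar_bar hp hqn1 hs w, Finset.smul_sum]
    refine Finset.sum_congr rfl (fun y _ => ?_)
    have h1 := hU (w - y) (σ y)
    have h2 := bar_gr (p := p) (k := k) (n := n) A (w - y)
    have h3 := bar_gr (p := p) (k := k) (n := n) T (kap p k (σ y))
    have h4 : bar (⇑(kap p k : ZMod (p ^ (k + 1)) →+ ZMod (p ^ k))) (gr n (p ^ (k + 1)) A) (w - y) =
      gr n (p ^ k) A (w - y) := h2
    have h5 : bar (⇑(kap p k : ZMod (p ^ (k + 1)) →+ ZMod (p ^ k))) (gr n (p ^ (k + 1)) T)
      ((kap p k : ZMod (p ^ (k + 1)) →+ ZMod (p ^ k)) (σ y)) = gr n (p ^ k) T y := by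
      have : gr n (p ^ k) T (kap p k (σ y)) = gr n (p ^ k) T y := by rw [hσ]
      rw [← this]; exact h3
    rw [h4, h5] at h1
    rw [mul_comm (gr n (p ^ (k + 1)) T (σ y)), mul_comm (gr n (p ^ k) T y)]
    exact h1

end Pool.Agent.CMT
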