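import Pool.Agent.CMT.AB

/-! The key lemma (uniform parity). See note 2669 (C). -/

namespace Pool.Agent.CMT

open Finset

section order

variable {G : Type} [AddCommGroup G]

theorem nn_mul {x y : AddMonoidAlgebra ℤ G} (hx : ∀ g, 0 ≤ x.coeff g) (hy : ∀ g, 0 ≤ y.coeff g)
    (g : G) : 0 ≤ (x * y).coeff g := by
  classical
  rw [AddMonoidAlgebra.coeff_mul]
  refine Finsupp.sum_nonneg fun a _ => Finsupp.sum_nonneg fun b _ => ?_
  split_ifs
  · exact mul_nonneg (hx a) (hy b)
  · exact le_rfl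

theorem nn_sum {ι : Type} {s : Finset ι} {f : ι → AddMonoidAlgebra ℤ G}
    (h : ∀ i ∈ s, ∀ g, 0 ≤ (f i).coeff g) (g : G) : 0 ≤ (∑ i ∈ s, f i).coeff g := by
  rw [AddMonoidAlgebra.coeff_sum, Finsupp.finsetSum_apply]
  exact sum_nonneg fun i hi => h i hi g

theorem mul_le_left {x x' y : AddMonoidAlgebra ℤ G} (hx : ∀ g, x.coeff g ≤ x'.coeff g)
    (hy : ∀ g, 0 ≤ y.coeff g) (g : G) : (x * y).coeff g ≤ (x' * y).coeff g := by
  have h := nn_mul (x := x' - x) (y := y) (fun g => by
    have := hx g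
    simp only [AddMonoidAlgebra.coeff_sub, Finsupp.sub_apply]; linarith) hy g
  rw [sub_mul, AddMonoidAlgebra.coeff_sub, Finsupp.sub_apply] at h
  linarith

theorem mul_le_right {x y y' : AddMonoidAlgebra ℤ G} (hy : ∀ g, y.coeff g ≤ y'.coeff g)
    (hx : ∀ g, 0 ≤ x.coeff g) (g : G) : (x * y).coeff g ≤ (x * y').coeff g := by
  rw [mul_comm x y, mul_comm x y']
  exact mul_le_left hy hx g

theorem smul_cancel {p : ℕ} (hp : p.Prime) {x y : AddMonoidAlgebra ℤ G}
    (h : (p : ℤ) • x = (p : ℤ) • y) : x = y := by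
  apply AddMonoidAlgebra.coeff_injective
  ext g
  have h1 := congrArg (fun z => z.coeff g) h
  simp only [AddMonoidAlgebra.coeff_smul, Finsupp.smul_apply, smul_eq_mul] at h1
  exact mul_left_cancel₀ (by exact_mod_cast hp.ne_zero) h1

end order

section main

variable {G : Type} [AddCommGroup G] {Q Qb : Type} [AddCommGroup Q] [Fintype Q]
  [AddCommGroup Qb] [DecidableEq Qb]

theorem nn_bar {κ : Q → Qb} {A : Q → AddMonoidAlgebra ℤ G} (hA : ∀ c g, 0 ≤ (A c).coeff g)
    (y : Qb) (g : G) : 0 ≤ (bar κ A y).coeff g :=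
  nn_sum (fun i _ => hA i) g

theorem le_bar {κ : Q → Qb} {A : Q → AddMonoidAlgebra ℤ G} (hA : ∀ c g, 0 ≤ (A c).coeff g)
    {y : Qb} {c : Q} (hc : κ c = y) (g : G) : (A c).coeff g ≤ (bar κ A y).coeff g := by
  classical
  have hmem : c ∈ univ.filter (fun c => κ c = y) := by simp [hc]
  unfold bar
  rw [← Finset.add_sum_erase _ _ hmem, AddMonoidAlgebra.coeff_add, Finsupp.add_apply]
  have := nn_sum (s := (univ.filter (fun c => κ c = y)).erase c) (f := A) (fun i _ => hA i) g
  linarith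

/-- The convolution over one fibre. -/
noncomputable def S (κ : Q → Qb) (A T : Q → AddMonoidAlgebra ℤ G) (y : Qb) (e : Q) :
    AddMonoidAlgebra ℤ G :=
  ∑ c ∈ univ.filter (fun c => κ c = y), A c * T (e - c)

theorem sum_fib (κ : Q →+ Qb) (T : Q → AddMonoidAlgebra ℤ G) (y : Qb) (e : Q) :
    ∑ c ∈ univ.filter (fun c => κ c = y), T (e - c) = bar κ T (κ e - y) := by
  unfold bar
  refine Finset.sum_nbij' (fun c => e - c) (fun c => e - c) ?_ ?_ ?_ ?_ ?_
  · intro c hc
    simp only [mem_filter, mem_univ, true_and] at hc ⊢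
    rw [map_sub, hc]
  · intro c hc
    simp only [mem_filter, mem_univ, true_and] at hc ⊢
    rw [map_sub, hc]; abel
  · intro c _; simp
  · intro c _; simp
  · intro c _; rfl

theorem pS {p : ℕ} (hp : p.Prime) (κ : Q →+ Qb)
    (hker : ∀ y, (univ.filter (fun c => κ c = y)).card = p)
    (A T : Q → AddMonoidAlgebra ℤ G)
    (F3 : ∀ c d, ((p : ℤ) • A c - bar κ A (κ c)) * ((p : ℤ) • T d - bar κ T (κ d)) = 0)
    (y : Qb) (e : Q) : (p : ℤ) • S κ A T y e = bar κ A y * bar κ T (κ e - y) := by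
  apply smul_cancel hp
  have h : ∑ c ∈ univ.filter (fun c => κ c = y),
      ((p : ℤ) • A c - bar κ A (κ c)) * ((p : ℤ) • T (e - c) - bar κ T (κ (e - c))) = 0 :=
    Finset.sum_eq_zero fun c _ => F3 c (e - c)
  have h2 : ∑ c ∈ univ.filter (fun c => κ c = y),
      ((p : ℤ) • A c - bar κ A (κ c)) * ((p : ℤ) • T (e - c) - bar κ T (κ (e - c))) =
      ∑ c ∈ univ.filter (fun c => κ c = y),
      ((p : ℤ) • ((p : ℤ) • (A c * T (e - c))) - (p : ℤ) • (A c * bar κ T (κ e - y))
        - (p : ℤ) • (bar κ A y * T (e - c)) + bar κ A y * bar κ T (κ e - y)) := by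
    refine Finset.sum_congr rfl fun c hc => ?_
    simp only [mem_filter, mem_univ, true_and] at hc
    rw [map_sub, hc, sub_mul, mul_sub, mul_sub]
    simp only [smul_mul_assoc, mul_smul_comm]
    abel
  rw [h2, Finset.sum_add_distrib, Finset.sum_sub_distrib, Finset.sum_sub_distrib,
    ← Finset.smul_sum, ← Finset.smul_sum, ← Finset.smul_sum, ← Finset.smul_sum,
    ← Finset.sum_mul, ← Finset.mul_sum, sum_fib, Finset.sum_const, hker] at h
  have h3 : ∑ c ∈ univ.filter (fun c => κ c = y), A c = bar κ A y := rfl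
  rw [h3] at h
  have h4 : p • (bar κ A y * bar κ T (κ e - y)) =
      (p : ℤ) • (bar κ A y * bar κ T (κ e - y)) := by simp
  rw [h4] at h
  unfold S
  have h5 := sub_eq_zero.1 (show (p : ℤ) • ((p : ℤ) • ∑ c ∈ univ.filter (fun c => κ c = y),
    A c * T (e - c)) - (p : ℤ) • (bar κ A y * bar κ T (κ e - y)) = 0 by
    rw [← h]; abel)
  exact h5

theorem star {p : ℕ} (hp : p.Prime) (κ : Q →+ Qb)
    (hker : ∀ y, (univ.filter (fun c => κ c = y)).card = p)
    (A T : Q → AddMonoidAlgebra ℤ G)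
    (F3 : ∀ c d, ((p : ℤ) • A c - bar κ A (κ c)) * ((p : ℤ) • T d - bar κ T (κ d)) = 0)
    (c d : Q) : (p : ℤ) • (A c * T d) =
      A c * bar κ T (κ d) + bar κ A (κ c) * T d - S κ A T (κ c) (c + d) := by
  apply smul_cancel hp
  have h := F3 c d
  have h1 := pS hp κ hker A T F3 (κ c) (c + d)
  rw [map_add, add_sub_cancel_left] at h1
  rw [sub_mul, mul_sub, mul_sub] at h
  simp only [smul_mul_assoc, mul_smul_comm] at h
  rw [← h1] at h
  rw [smul_sub, smul_add]
  rw [← sub_eq_zero, ← h]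
  abel

theorem sum_S [Fintype Qb] (κ : Q → Qb) (A T : Q → AddMonoidAlgebra ℤ G) (e : Q) :
    ∑ y, S κ A T y e = ∑ c, A c * T (e - c) := by
  unfold S
  exact Finset.sum_fiberwise univ κ (fun c => A c * T (e - c))

theorem pt {p : ℕ} (hp : p.Prime) [Fintype G] [Fintype Qb] (κ : Q →+ Qb)
    (hker : ∀ y, (univ.filter (fun c => κ c = y)).card = p)
    (A T : Q → AddMonoidAlgebra ℤ G)
    (hA : ∀ c g, 0 ≤ (A c).coeff g) (hT : ∀ c g, 0 ≤ (T c).coeff g)
    (H : ∀ e, ∑ c, A c * T (e - c) = nrm ℤ G)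
    (F3 : ∀ c d, ((p : ℤ) • A c - bar κ A (κ c)) * ((p : ℤ) • T d - bar κ T (κ d)) = 0)
    (e : Q) (s : Qb → Q) (hs : ∀ y, κ (s y) = y)
    (h0 : ∀ g, (p : ℤ) ∣ (∑ y, bar κ A y * T (e - s y)).coeff g) (c : Q) :
    (p : ℤ) • (A c * bar κ T (κ e - κ c)) = bar κ A (κ c) * bar κ T (κ e - κ c) := by
  have hSp := fun y => pS hp κ hker A T F3 y e
  rw [← hSp]
  congr 1
  apply AddMonoidAlgebra.coeff_injective
  ext g
  have hp0 : (0 : ℤ) < p := by exact_mod_cast hp.pos
  have hp1 : (1 : ℤ) < p := by exact_mod_cast hp.one_lt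
  have hSnn : ∀ y, 0 ≤ (S κ A T y e).coeff g := fun y =>
    nn_sum (fun c _ => nn_mul (hA c) (hT (e - c))) g
  have hS1 : ∑ y, (S κ A T y e).coeff g = 1 := by
    have h1 := congrArg (fun z => z.coeff g) ((sum_S κ A T e).trans (H e))
    simp only [nrm_coeff] at h1
    rw [← h1, AddMonoidAlgebra.coeff_sum, Finsupp.finsetSum_apply]
  have hSpg : ∀ y, (p : ℤ) * (S κ A T y e).coeff g =
      (bar κ A y * bar κ T (κ e - y)).coeff g := by
    intro y
    rw [← hSp y, AddMonoidAlgebra.coeff_smul, Finsupp.smul_apply, smul_eq_mul]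
  have hle : (A c * bar κ T (κ e - κ c)).coeff g ≤
      (bar κ A (κ c) * bar κ T (κ e - κ c)).coeff g :=
    mul_le_left (le_bar hA rfl) (nn_bar hT _) g
  have hnn : 0 ≤ (A c * bar κ T (κ e - κ c)).coeff g := nn_mul (hA c) (nn_bar hT _) g
  have hrest : (S κ A T (κ c) e).coeff g + ∑ y ∈ univ.erase (κ c), (S κ A T y e).coeff g = 1 := by
    rw [Finset.add_sum_erase univ (fun y => (S κ A T y e).coeff g) (mem_univ _)]; exact hS1
  have hrnn : 0 ≤ ∑ y ∈ univ.erase (κ c), (S κ A T y e).coeff g :=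
    sum_nonneg fun y _ => hSnn y
  have h01 : (S κ A T (κ c) e).coeff g = 0 ∨ (S κ A T (κ c) e).coeff g = 1 := by
    have := hSnn (κ c)
    omega
  rcases h01 with h01 | h01
  · have := hSpg (κ c)
    rw [h01, mul_zero] at this
    rw [h01]
    linarith
  · have hr0 : ∑ y ∈ univ.erase (κ c), (S κ A T y e).coeff g = 0 := by linarith
    have hr1 := (Finset.sum_eq_zero_iff_of_nonneg (fun y _ => hSnn y)).1 hr0
    -- the coefficient `v`
    have hv : (p : ℤ) ∣ (bar κ A (κ c) * T (e - s (κ c))).coeff g := by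
      have h2 := h0 g
      rw [AddMonoidAlgebra.coeff_sum, Finsupp.finsetSum_apply,
        ← Finset.add_sum_erase _ _ (mem_univ (κ c))] at h2
      have h3 : ∑ y ∈ univ.erase (κ c), (bar κ A y * T (e - s y)).coeff g = 0 := by
        refine Finset.sum_eq_zero fun y hy => ?_
        have h4 : (bar κ A y * T (e - s y)).coeff g ≤ (bar κ A y * bar κ T (κ e - y)).coeff g :=
          mul_le_right (le_bar hT (by rw [map_sub, hs])) (nn_bar hA _) g
        rw [← hSpg y, hr1 y hy, mul_zero] at h4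
        exact le_antisymm h4 (nn_mul (nn_bar hA _) (hT _) g)
      rw [h3, add_zero] at h2
      exact h2
    have hst := star hp κ hker A T F3 c (e - s (κ c))
    have hk : κ (e - s (κ c)) = κ e - κ c := by rw [map_sub, hs]
    rw [hk] at hst
    have hSS : S κ A T (κ c) (c + (e - s (κ c))) = S κ A T (κ c) e := by
      apply smul_cancel hp
      rw [pS hp κ hker A T F3, pS hp κ hker A T F3, map_add, hk]
      congr 2; abel
    rw [hSS] at hst
    have hstg := congrArg (fun z => z.coeff g) hst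
    simp only [AddMonoidAlgebra.coeff_smul, AddMonoidAlgebra.coeff_sub, AddMonoidAlgebra.coeff_add,
      Finsupp.smul_apply, Finsupp.sub_apply, Finsupp.add_apply, smul_eq_mul, h01] at hstg
    rw [← hSpg (κ c), h01, mul_one] at hle
    rw [h01]
    obtain ⟨v, hv⟩ := hv
    rw [hv] at hstg
    set u := (A c * bar κ T (κ e - κ c)).coeff g with hu
    set w := (A c * T (e - s (κ c))).coeff g
    have h5 : u - 1 = p * (w - v) := by linarith
    -- `0 ≤ u ≤ p` and `p ∣ u - 1`
    have h6 : w - v < 1 := by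
      by_contra h7
      have h8 : (p : ℤ) * 1 ≤ p * (w - v) := mul_le_mul_of_nonneg_left (by linarith) hp0.le
      linarith
    have h9 : -1 < w - v := by
      by_contra h7
      have h8 : (p : ℤ) * (w - v) ≤ p * (-1) := mul_le_mul_of_nonneg_left (by linarith) hp0.le
      linarith
    have h10 : w - v = 0 := by omega
    rw [h10, mul_zero] at h5
    linarith

end main

theorem upt {p : ℕ} (hp : p.Prime) {G : Type} [AddCommGroup G] [Fintype G]
    (hG : (Fintype.card G).Coprime p) {Q Qb : Type} [AddCommGroup Q] [Fintype Q]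
    [DecidableEq Q] [AddCommGroup Qb] [Fintype Qb] [DecidableEq Qb] (κ : Q →+ Qb)
    (hker : ∀ y, (univ.filter (fun c => κ c = y)).card = p)
    (A T : Q → AddMonoidAlgebra ℤ G)
    (hA : ∀ c g, 0 ≤ (A c).coeff g) (hT : ∀ c g, 0 ≤ (T c).coeff g)
    (H : ∀ e, ∑ c, A c * T (e - c) = nrm ℤ G)
    (F3 : ∀ c d, ((p : ℤ) • A c - bar κ A (κ c)) * ((p : ℤ) • T d - bar κ T (κ d)) = 0) :
    (∀ c y, (p : ℤ) • (A c * bar κ T y) = bar κ A (κ c) * bar κ T y) ∨
    (∀ y d, (p : ℤ) • (bar κ A y * T d) = bar κ A y * bar κ T (κ d)) := by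
  classical
  have hsec : ∀ y, ∃ c, κ c = y := by
    intro y
    have : 0 < (univ.filter (fun c => κ c = y)).card := by rw [hker]; exact hp.pos
    obtain ⟨c, hc⟩ := Finset.card_pos.1 this
    exact ⟨c, by simpa using hc⟩
  choose s hs using hsec
  set φ : AddMonoidAlgebra ℤ G →+* AddMonoidAlgebra (ZMod p) G :=
    AddMonoidAlgebra.mapRingHom G (Int.castRingHom (ZMod p)) with hφ
  have hφc : ∀ (x : AddMonoidAlgebra ℤ G) g, (φ x).coeff g = ((x.coeff g : ℤ) : ZMod p) := by
    intro x g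
    simp [hφ]
  have hφN : φ (nrm ℤ G) = nrm (ZMod p) G := by
    apply AddMonoidAlgebra.coeff_injective
    ext g
    rw [hφc, nrm_coeff, nrm_coeff]; simp
  have hφp : ∀ x : AddMonoidAlgebra ℤ G, φ ((p : ℤ) • x) = 0 := by
    intro x
    apply AddMonoidAlgebra.coeff_injective
    ext g
    rw [hφc, AddMonoidAlgebra.coeff_smul, Finsupp.smul_apply, smul_eq_mul]
    push_cast
    simp
  have hφ0 : ∀ x : AddMonoidAlgebra ℤ G, φ x = 0 → ∀ g, (p : ℤ) ∣ x.coeff g := by
    intro x hx g
    have := hφc x g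
    rw [hx] at this
    exact (ZMod.intCast_zmod_eq_zero_iff_dvd _ _).1 (by simpa using this.symm)
  have hpos := alt hp hG (fun e => φ (∑ y, A (s y) * bar κ T (κ e - y)))
    (fun e => φ (∑ y, bar κ A y * T (e - s y))) ?_ ?_
  · rcases hpos with h | h
    · right
      intro y d
      -- use `pt` with `A` and `T` exchanged
      obtain ⟨e, he⟩ : ∃ e, e = s y + d := ⟨_, rfl⟩
      have hH : ∀ e, ∑ c, T c * A (e - c) = nrm ℤ G := by
        intro e
        rw [← H e]
        refine Fintype.sum_equiv (Equiv.subLeft e) _ _ fun c => ?_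
        simp only [Equiv.subLeft_apply, sub_sub_cancel]
        rw [mul_comm]
      have hF : ∀ c d, ((p : ℤ) • T c - bar κ T (κ c)) * ((p : ℤ) • A d - bar κ A (κ d)) = 0 :=
        fun c d => by rw [mul_comm]; exact F3 d c
      have h1 := pt hp κ hker T A hT hA hH hF e (fun z => e - s (κ e - z))
        (fun z => by rw [map_sub, hs]; abel) ?_ d
      · have h2 : κ e - κ d = y := by rw [he, map_add, hs]; abel
        rw [h2] at h1
        rw [mul_comm (bar κ A y) (T d), h1, mul_comm]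
      · intro g
        have h3 := hφ0 _ (h e) g
        have h4 : (∑ z, bar κ T z * A (e - (e - s (κ e - z)))) =
            ∑ z, A (s z) * bar κ T (κ e - z) := by
          refine Fintype.sum_equiv (Equiv.subLeft (κ e)) _ _ fun z => ?_
          simp only [Equiv.subLeft_apply, sub_sub_cancel]
          rw [mul_comm]
        rw [h4]; exact h3
    · left
      intro c y
      have h1 := pt hp κ hker A T hA hT H F3 (c + s y) s hs (fun g => hφ0 _ (h (c + s y)) g) c
      have h2 : κ (c + s y) - κ c = y := by rw [map_add, hs]; abel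
      rw [h2] at h1
      exact h1
  · intro e
    show φ _ + φ _ = _
    rw [← map_add, ← Finset.sum_add_distrib]
    have h1 : ∀ y, A (s y) * bar κ T (κ e - y) + bar κ A y * T (e - s y) =
        (p : ℤ) • (A (s y) * T (e - s y)) + S κ A T y e := by
      intro y
      have := star hp κ hker A T F3 (s y) (e - s y)
      rw [this, map_sub, hs]
      have h2 : s y + (e - s y) = e := by abel
      rw [h2]; abel
    rw [Finset.sum_congr rfl fun y _ => h1 y, Finset.sum_add_distrib, map_add, ← Finset.smul_sum,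
      hφp, zero_add, sum_S, H, hφN]
  · intro e e'
    show φ _ * φ _ = 0
    rw [← map_mul, Finset.sum_mul_sum, map_sum]
    refine Finset.sum_eq_zero fun y _ => ?_
    rw [map_sum]
    refine Finset.sum_eq_zero fun y' _ => ?_
    have h1 := pS hp κ hker A T F3 y' (s (y' + (κ e - y)))
    rw [hs, add_sub_cancel_left] at h1
    have h2 : A (s y) * bar κ T (κ e - y) * (bar κ A y' * T (e' - s y')) =
        (p : ℤ) • (S κ A T y' (s (y' + (κ e - y))) * (A (s y) * T (e' - s y'))) := by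
      rw [← smul_mul_assoc, h1]; ring
    rw [h2, hφp]

end Pool.Agent.CMT
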